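import Pool.Graph.R_seed8.Y913.Nb.CountP3

/-!
# Pairs of products of powers of few integers in one residue class
-/

set_option autoImplicit false

namespace Pool.Agent.Helper5.Third

open Finset Pool.Agent.Y913 Pool.Agent.Y913.Nb

/-- number of variables -/
def nv (n : ℕ) : ℕ := 2 * (n + 1)

theorem card_nv (n : ℕ) : Fintype.card (Fin 2 × Option (Fin n)) = nv n := by
  simp [nv]

theorem coprime_of_dvd_prod {n : ℕ} {u f r : ℕ} {x a : Option (Fin n) → ℕ}
    (hu : u = f * ∏ l, x l ^ a l) (h : u.Coprime r) :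
    f.Coprime r ∧ (∏ l, x l ^ a l).Coprime r := by
  rw [hu] at h
  exact ⟨Nat.Coprime.coprime_dvd_left (dvd_mul_right _ _) h,
    Nat.Coprime.coprime_dvd_left (dvd_mul_left _ _) h⟩

theorem ud_mul {N a b : ℕ} (ha : a.Coprime N) (hb : b.Coprime N) :
    ud N (a * b) = ud N a * ud N b := by
  rw [← Units.val_inj, Units.val_mul, ud_coe ha, ud_coe hb, ud_coe (Nat.Coprime.mul_left ha hb)]
  push_cast
  rfl

theorem ud_pow {N a : ℕ} (ha : a.Coprime N) (k : ℕ) : ud N (a ^ k) = ud N a ^ k := by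
  rw [← Units.val_inj, Units.val_pow_eq_pow_val, ud_coe ha, ud_coe (Nat.Coprime.pow_left _ ha)]
  push_cast
  rfl

/-- **few pairs in one residue class** -/
theorem one_class (n w : ℕ) : ∃ M0 C1 : ℕ, ∀ (ι : Type) (r h Z Φ : ℕ)
    (a b : Option (Fin n) → ℕ) (I : Finset ι) (u v : ι → ℕ) (x y : ι → Option (Fin n) → ℕ)
    (f g : ℕ) (e : ℤ), 2 ≤ r → 2 ≤ h → 1 ≤ Z → Z ≤ (r ^ h) ^ w → (∑ l, a l) + ∑ l, b l ≤ Φ →
    M0 * Φ ≤ r ^ h → (e = 1 ∨ e = -1) →
    (∀ i ∈ I, 0 < u i ∧ 0 < v i ∧ (u i).Coprime (v i) ∧ (u i).Coprime r ∧ (v i).Coprime r ∧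
      ((r ^ (h * KK (nv n) (nv n * w)) : ℕ) : ℤ) ∣ (u i : ℤ) - e * v i ∧
      u i = f * ∏ l, x i l ^ a l ∧ v i = g * ∏ l, y i l ^ b l ∧
      (∀ l, 1 ≤ x i l ∧ x i l ≤ Z ∧ (x i l).Coprime r) ∧
      ∀ l, 1 ≤ y i l ∧ y i l ≤ Z ∧ (y i l).Coprime r) →
    (∀ i ∈ I, ∀ i' ∈ I, u i = u i' → v i = v i' → i = i') →
    I.card ≤ (C1 * (r ^ h) ^ nv n) ^ nv n := by
  classical
  obtain ⟨M0, C1, hc⟩ := count_padic_val3 (Fin 2 × Option (Fin n)) w
  rw [card_nv] at hc
  refine ⟨M0, C1, ?_⟩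
  intro ι r h Z Φ a b I u v x y f g e hr hh hZ hZw hΦ hM0 he hI hinj
  obtain ⟨M, hM⟩ : ∃ M, M = h * KK (nv n) (nv n * w) := ⟨_, rfl⟩
  rw [← hM] at hI
  obtain ⟨φ, hφ⟩ : ∃ φ : Fin 2 × Option (Fin n) → ℤ,
      φ = fun s => if s.1 = 0 then (a s.2 : ℤ) else -(b s.2 : ℤ) := ⟨_, rfl⟩
  obtain ⟨z, hz⟩ : ∃ z : ι → Fin 2 × Option (Fin n) → ℕ,
      z = fun i s => if s.1 = 0 then x i s.2 else y i s.2 := ⟨_, rfl⟩
  obtain ⟨κ, hκ⟩ : ∃ κ : (ZMod (r ^ M))ˣ,
      κ = (if e = 1 then 1 else -1) * (ud (r ^ M) f)⁻¹ * ud (r ^ M) g := ⟨_, rfl⟩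
  refine hc ι r h Z M Φ φ I z κ hr hh hZ hZw ?_ hM0 (by rw [hM]) ?_ ?_ ?_
  · rw [Fintype.sum_prod_type, Fin.sum_univ_two, hφ]
    simp only [Fin.isValue, ↓reduceIte, one_ne_zero, abs_neg, Nat.abs_cast]
    exact_mod_cast hΦ
  · rintro i hi ⟨j, l⟩
    obtain ⟨-, -, -, -, -, -, -, -, h1, h2⟩ := hI i hi
    rw [hz]
    simp only
    split_ifs
    · exact h1 l
    · exact h2 l
  · intro i hi
    obtain ⟨h1, h2, h3, h4, h5, h6, h7, h8, h9, h10⟩ := hI i hi
    have h4' : (u i).Coprime (r ^ M) := Nat.Coprime.pow_right _ h4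
    have h5' : (v i).Coprime (r ^ M) := Nat.Coprime.pow_right _ h5
    obtain ⟨f1, f2⟩ := coprime_of_dvd_prod h7 h4'
    obtain ⟨g1, g2⟩ := coprime_of_dvd_prod h8 h5'
    have hx : ∀ l, (x i l).Coprime (r ^ M) := fun l => Nat.Coprime.pow_right _ (h9 l).2.2
    have hy : ∀ l, (y i l).Coprime (r ^ M) := fun l => Nat.Coprime.pow_right _ (h10 l).2.2
    have eu : ud (r ^ M) (u i) = ud (r ^ M) f * ∏ l, ud (r ^ M) (x i l) ^ a l := by
      conv_lhs => rw [h7]
      rw [ud_mul f1 f2, ud_prod _ _ (fun l _ => Nat.Coprime.pow_left _ (hx l))]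
      congr 1
      exact Finset.prod_congr rfl fun l _ => ud_pow (hx l) _
    have ev : ud (r ^ M) (v i) = ud (r ^ M) g * ∏ l, ud (r ^ M) (y i l) ^ b l := by
      conv_lhs => rw [h8]
      rw [ud_mul g1 g2, ud_prod _ _ (fun l _ => Nat.Coprime.pow_left _ (hy l))]
      congr 1
      exact Finset.prod_congr rfl fun l _ => ud_pow (hy l) _
    have euv : ud (r ^ M) (u i) = (if e = 1 then 1 else -1) * ud (r ^ M) (v i) := by
      rw [← Units.val_inj, Units.val_mul, ud_coe h4', ud_coe h5']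
      have h11 := (ZMod.intCast_zmod_eq_zero_iff_dvd _ _).mpr h6
      push_cast at h11
      rw [sub_eq_zero] at h11
      rw [h11]
      rcases he with rfl | rfl
      · simp
      · simp
    rw [Fintype.prod_prod_type, Fin.prod_univ_two, hφ, hz]
    simp only [Fin.isValue, ↓reduceIte, one_ne_zero, zpow_natCast, zpow_neg]
    rw [Finset.prod_inv_distrib, hκ]
    have e1 : ∏ l, ud (r ^ M) (x i l) ^ a l = (ud (r ^ M) f)⁻¹ * ud (r ^ M) (u i) := by
      rw [eu, inv_mul_cancel_left]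
    have e2 : ∏ l, ud (r ^ M) (y i l) ^ b l = (ud (r ^ M) g)⁻¹ * ud (r ^ M) (v i) := by
      rw [ev, inv_mul_cancel_left]
    rw [e1, e2, euv, mul_inv, inv_inv]
    generalize (if e = 1 then (1 : (ZMod (r ^ M))ˣ) else -1) = s
    generalize ud (r ^ M) (v i) = V
    generalize ud (r ^ M) f = F
    generalize ud (r ^ M) g = G
    calc F⁻¹ * (s * V) * (G * V⁻¹) = s * F⁻¹ * G * (V * V⁻¹) := by ac_rfl
      _ = s * F⁻¹ * G := by rw [mul_inv_cancel, mul_one]
  · intro i hi i' hi' heq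
    obtain ⟨h1, h2, h3, h4, h5, h6, h7, h8, h9, h10⟩ := hI i hi
    obtain ⟨h1', h2', h3', h4', h5', h6', h7', h8', h9', h10'⟩ := hI i' hi'
    have hval : ∀ i ∈ I, ∑ s, (φ s : ℝ) * Real.log (z i s) =
        (Real.log (u i) - Real.log f) - (Real.log (v i) - Real.log g) := by
      intro i hi
      obtain ⟨h1, h2, h3, h4, h5, h6, h7, h8, h9, h10⟩ := hI i hi
      rw [Fintype.sum_prod_type, Fin.sum_univ_two, hφ, hz]
      simp only [Fin.isValue, ↓reduceIte, one_ne_zero, Int.cast_natCast, Int.cast_neg, neg_mul,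
        Finset.sum_neg_distrib]
      have hlog : ∀ (t c : Option (Fin n) → ℕ), (∀ l, 1 ≤ t l) →
          Real.log ((∏ l, t l ^ c l : ℕ) : ℝ) = ∑ l, (c l : ℝ) * Real.log (t l) := by
        intro t c ht
        push_cast
        rw [Real.log_prod (fun l _ => pow_ne_zero _ (by
          have := ht l
          positivity))]
        simp only [Real.log_pow]
      have hf0 : f ≠ 0 := by
        rintro rfl
        rw [zero_mul] at h7
        omega
      have hg0 : g ≠ 0 := by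
        rintro rfl
        rw [zero_mul] at h8
        omega
      have hX : ((∏ l, x i l ^ a l : ℕ) : ℝ) ≠ 0 := by
        rw [Nat.cast_ne_zero]
        exact (Finset.prod_pos fun l _ => Nat.pow_pos (h9 l).1).ne'
      have hY : ((∏ l, y i l ^ b l : ℕ) : ℝ) ≠ 0 := by
        rw [Nat.cast_ne_zero]
        exact (Finset.prod_pos fun l _ => Nat.pow_pos (h10 l).1).ne'
      have e1 : Real.log (u i) = Real.log f + ∑ l, (a l : ℝ) * Real.log (x i l) := by
        conv_lhs => rw [h7]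
        rw [Nat.cast_mul, Real.log_mul (by exact_mod_cast hf0) hX, hlog _ _ (fun l => (h9 l).1)]
      have e2 : Real.log (v i) = Real.log g + ∑ l, (b l : ℝ) * Real.log (y i l) := by
        conv_lhs => rw [h8]
        rw [Nat.cast_mul, Real.log_mul (by exact_mod_cast hg0) hY, hlog _ _ (fun l => (h10 l).1)]
      rw [e1, e2]
      ring
    rw [hval i hi, hval i' hi'] at heq
    have hlog : Real.log ((u i : ℝ) * v i') = Real.log ((u i' : ℝ) * v i) := by
      rw [Real.log_mul (by positivity) (by positivity), Real.log_mul (by positivity) (by positivity)]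
      linarith
    have hmul : (u i : ℝ) * v i' = (u i' : ℝ) * v i :=
      Real.log_injOn_pos (by show (0 : ℝ) < _; positivity) (by show (0 : ℝ) < _; positivity) hlog
    have hmul' : u i * v i' = u i' * v i := by exact_mod_cast hmul
    have d1 : u i ∣ u i' := by
      apply h3.dvd_of_dvd_mul_right
      rw [← hmul']
      exact dvd_mul_right _ _
    have d2 : u i' ∣ u i := by
      apply h3'.dvd_of_dvd_mul_right
      rw [hmul']
      exact dvd_mul_right _ _
    have e1 := Nat.dvd_antisymm d1 d2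
    refine hinj i hi i' hi' e1 ?_
    rw [e1] at hmul'
    exact (Nat.eq_of_mul_eq_mul_left h1' hmul').symm

end Pool.Agent.Helper5.Third
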