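import Pool.Agent.Helper5.Third.Root
import Pool.Agent.Helper5.Third.OneClass
import Pool.Graph.R_seed8.H705R2.ABC.Main
import Pool.Graph.R_seed8.Y913.Nb.PadN3

/-!
# Cells one side of which has a light and large power divisor
-/

set_option autoImplicit false

namespace Pool.Agent.Helper5.Third

open Finset Pool.Agent.H785R2.ABC Pool.Agent.H785R2.ABC.Fin1 Pool.Agent.Y913
open Pool.Agent.H705R2.ABC

/-- padding -/
theorem exists_pad {α : Type} [DecidableEq α] (n : ℕ) : ∀ B : Finset α, B.card ≤ n →
    ∃ g : Fin n → Option α, (∀ l i, g l = some i → i ∈ B) ∧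
      ∀ f : α → ℕ, ∏ l, (g l).elim 1 f = ∏ i ∈ B, f i := by
  induction n with
  | zero =>
    intro B hB
    have h0 : B = ∅ := Finset.card_eq_zero.mp (by omega)
    exact ⟨fun l => none, fun l => l.elim0, fun f => by simp [h0]⟩
  | succ n ih =>
    intro B hB
    rcases B.eq_empty_or_nonempty with rfl | ⟨a, ha⟩
    · exact ⟨fun _ => none, fun l i h => by simp at h, fun f => by simp⟩
    · obtain ⟨g, hg, hp⟩ := ih (B.erase a) (by rw [card_erase_of_mem ha]; omega)
      refine ⟨Fin.cons (some a) g, ?_, ?_⟩
      · intro l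
        refine Fin.cases ?_ ?_ l
        · intro i h
          rw [Fin.cons_zero, Option.some.injEq] at h
          rw [← h]
          exact ha
        · intro l i h
          rw [Fin.cons_succ] at h
          exact mem_of_mem_erase (hg l i h)
      · intro f
        rw [Fin.prod_univ_succ, Fin.cons_zero]
        simp only [Fin.cons_succ, Option.elim_some]
        rw [hp f, mul_prod_erase _ _ ha]

/-- the representation of a number by the classes in `B`, the part of the classes in `F` and the
rest -/
theorem exists_repr (hF : Basics) {K n : ℕ} (B F : Finset (Fin (K + 1))) (hB : B.card ≤ n)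
    (hl : Fin.last K ∉ B) (hBF : Disjoint B F) :
    ∃ a : Option (Fin n) → ℕ, ∑ l, a l ≤ 1 + n * (K + 1) ∧ ∀ m : ℕ, 1 ≤ m →
      ∃ x : Option (Fin n) → ℕ, m = part K m F * ∏ l, x l ^ a l ∧
        (∀ l, 1 ≤ x l ∧ x l ∣ m) ∧
        ∀ Z : ℝ, (rad m : ℝ) ≤ Z → (part K m (B ∪ F)ᶜ : ℝ) ≤ Z → ∀ l, (x l : ℝ) ≤ Z := by
  classical
  obtain ⟨g, hg, hp⟩ := exists_pad n B hB
  refine ⟨fun l => l.elim 1 (fun l => (g l).elim 0 (fun i => (i : ℕ) + 1)), ?_, ?_⟩
  · rw [Fintype.sum_option]
    simp only [Option.elim_none, Option.elim_some]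
    have h1 : ∑ l : Fin n, (g l).elim 0 (fun i => (i : ℕ) + 1) ≤ ∑ _l : Fin n, (K + 1) := by
      apply Finset.sum_le_sum
      intro l _
      rcases h : g l with _ | i
      · simp
      · simp only [Option.elim_some]
        omega
    rw [Finset.sum_const, card_univ, Fintype.card_fin, smul_eq_mul] at h1
    omega
  · intro m hm
    have hsp : m = part K m F * (part K m (B ∪ F)ᶜ * part K m B) := by
      conv_lhs => rw [← hF.part_mul K m (B ∪ F) hm]
      have h1 : part K m (B ∪ F) = part K m B * part K m F := by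
        rw [hF.part_prod K m (B ∪ F), prod_union hBF, ← hF.part_prod, ← hF.part_prod]
      rw [h1]
      ring
    refine ⟨fun l => l.elim (part K m (B ∪ F)ᶜ) (fun l => (g l).elim 1 (fun i => rd K m {i})),
      ?_, ?_, ?_⟩
    · rw [Fintype.prod_option]
      simp only [Option.elim_none, Option.elim_some, pow_one]
      have h1 : ∏ l : Fin n, (g l).elim 1 (fun i => rd K m {i}) ^
          (g l).elim 0 (fun i => (i : ℕ) + 1) = part K m B := by
        rw [hF.part_prod K m B, ← hp]
        apply Finset.prod_congr rfl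
        intro l _
        rcases h : g l with _ | i
        · simp
        · simp only [Option.elim_some]
          have hi := hg l i h
          rw [hF.part_single K m i]
          have h2 : i ≠ Fin.last K := fun h => hl (by rwa [← h])
          have h3 : (i : ℕ) ≠ K := fun h => h2 (Fin.ext (by simpa using h))
          have := i.isLt
          omega
      rw [h1]
      exact hsp
    · intro l
      rcases l with _ | l
      · simp only [Option.elim_none]
        exact ⟨hF.part_pos _ _ _, hF.part_dvd _ _ _ hm⟩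
      · simp only [Option.elim_some]
        rcases h : g l with _ | i
        · simp
        · simp only [Option.elim_some]
          refine ⟨hF.rd_pos _ _ _, ?_⟩
          have h1 : rd K m {i} ∣ rad m := by
            rw [← hF.rd_univ K m]
            exact hF.rd_dvd K _ _ _ (subset_univ _)
          exact h1.trans (Nat.prod_primeFactors_dvd _)
    · intro Z h1 h2 l
      have hradp : 0 < rad m := Finset.prod_pos fun p hp =>
        (Nat.prime_of_mem_primeFactors hp).pos
      have hZ1 : (1 : ℝ) ≤ Z := by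
        refine le_trans ?_ h1
        exact_mod_cast hradp
      rcases l with _ | l
      · exact h2
      · simp only [Option.elim_some]
        rcases h : g l with _ | i
        · simpa using hZ1
        · simp only [Option.elim_some]
          have h3 : rd K m {i} ∣ rad m := by
            rw [← hF.rd_univ K m]
            exact hF.rd_dvd K _ _ _ (subset_univ _)
          refine le_trans ?_ h1
          exact_mod_cast Nat.le_of_dvd hradp h3

/-- the congruence between two sides modulo the third -/
theorem exists_sign (p q r : Fin 3) (h1 : p ≠ q) (h2 : q ≠ r) (h3 : p ≠ r) :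
    ∃ e : ℤ, (e = 1 ∨ e = -1) ∧ ∀ s : ℕ × ℕ × ℕ, IsABCTriple s.1 s.2.1 s.2.2 →
      ((num s r : ℕ) : ℤ) ∣ (num s p : ℤ) - e * num s q := by
  have key : ∀ s : ℕ × ℕ × ℕ, IsABCTriple s.1 s.2.1 s.2.2 → (s.1 : ℤ) + s.2.1 = s.2.2 := by
    intro s hs
    exact_mod_cast hs.2.2.2.1
  have n0 : ∀ s : ℕ × ℕ × ℕ, num s 0 = s.1 := fun s => by simp [num]
  have n1 : ∀ s : ℕ × ℕ × ℕ, num s 1 = s.2.1 := fun s => by simp [num]
  have n2 : ∀ s : ℕ × ℕ × ℕ, num s 2 = s.2.2 := fun s => by simp [num]
  fin_cases p <;> fin_cases q <;> fin_cases r <;>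
    first
      | (exfalso; first | exact h1 rfl | exact h2 rfl | exact h3 rfl)
      | (refine ⟨1, Or.inl rfl, fun s hs => ?_⟩
         have := key s hs
         simp only [Fin.zero_eta, Fin.mk_one, Fin.reduceFinMk, n0, n1, n2]
         first
           | exact ⟨1, by linarith⟩
           | exact ⟨-1, by linarith⟩)
      | (refine ⟨-1, Or.inr rfl, fun s hs => ?_⟩
         have := key s hs
         simp only [Fin.zero_eta, Fin.mk_one, Fin.reduceFinMk, n0, n1, n2]
         exact ⟨1, by linarith⟩)

theorem num_coprime {s : ℕ × ℕ × ℕ} (hs : IsABCTriple s.1 s.2.1 s.2.2) (p q : Fin 3)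
    (h : p ≠ q) : (num s p).Coprime (num s q) := by
  obtain ⟨a0, b0, c0, hab, k1, k2, k3⟩ := hs
  have n0 : num s 0 = s.1 := by simp [num]
  have n1 : num s 1 = s.2.1 := by simp [num]
  have n2 : num s 2 = s.2.2 := by simp [num]
  fin_cases p <;> fin_cases q <;>
    first
      | (exfalso; exact h rfl)
      | (simp only [Fin.zero_eta, Fin.mk_one, Fin.reduceFinMk, n0, n1, n2]
         first | exact k1 | exact k2 | exact k3 | exact k1.symm | exact k2.symm | exact k3.symm)

/-- two sides determine the triple -/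
theorem num_inj {s s' : ℕ × ℕ × ℕ} (hs : IsABCTriple s.1 s.2.1 s.2.2)
    (hs' : IsABCTriple s'.1 s'.2.1 s'.2.2) (p q : Fin 3) (h : p ≠ q)
    (h1 : num s p = num s' p) (h2 : num s q = num s' q) : s = s' := by
  obtain ⟨a0, b0, c0, hab, k1, k2, k3⟩ := hs
  obtain ⟨a0', b0', c0', hab', k1', k2', k3'⟩ := hs'
  have n0 : ∀ s : ℕ × ℕ × ℕ, num s 0 = s.1 := fun s => by simp [num]
  have n1 : ∀ s : ℕ × ℕ × ℕ, num s 1 = s.2.1 := fun s => by simp [num]
  have n2 : ∀ s : ℕ × ℕ × ℕ, num s 2 = s.2.2 := fun s => by simp [num]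
  have key : s.1 = s'.1 ∧ s.2.1 = s'.2.1 ∧ s.2.2 = s'.2.2 := by
    fin_cases p <;> fin_cases q <;>
    first
      | (exfalso; exact h rfl)
      | (simp only [Fin.zero_eta, Fin.mk_one, Fin.reduceFinMk, n0, n1, n2] at h1 h2
         refine ⟨?_, ?_, ?_⟩ <;> omega)
  exact Prod.ext key.1 (Prod.ext key.2.1 key.2.2)

/-- the cost of the light classes -/
noncomputable def lamOf (n : ℕ) (ε : ℝ) : ℝ := ε / (16 * (nv n : ℝ) ^ 2)

end Pool.Agent.Helper5.Third
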