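import Pool.Agent.Helper5.Third.CellP

/-!
# The bound for cells one side of which has a light and large power divisor
-/

set_option autoImplicit false

namespace Pool.Agent.Helper5.Third

open Finset Pool.Agent.H785R2.ABC Pool.Agent.H785R2.ABC.Fin1 Pool.Agent.Y913
open Pool.Agent.H705R2.ABC Pool.Agent.Y913.Nb

theorem nv_pos (n : ℕ) : (0 : ℝ) < nv n := by
  have : 0 < nv n := by unfold nv; omega
  exact_mod_cast this

theorem lamOf_pos (n : ℕ) {ε : ℝ} (hε : 0 < ε) : 0 < lamOf n ε := by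
  have := nv_pos n
  unfold lamOf
  positivity

/-- **one fibre**: the base `r`, and the fixed parts `f`, `g` of two sides -/
theorem fibre (n : ℕ) (C ε : ℝ) (hC : 1 ≤ C) (hε : 0 < ε) : ∃ C' : ℝ, 2 ≤ C' ∧
    ∀ K : ℕ, ∃ D R0 : ℝ, 0 < D ∧ 2 ≤ R0 ∧ ∀ R : ℝ, R0 ≤ R →
    ∀ (p q r : Fin 3), p ≠ q → q ≠ r → p ≠ r → ∀ (Bp Bq Fp Fq : Finset (Fin (K + 1))),
    Bp.card ≤ n → Bq.card ≤ n → Fin.last K ∉ Bp → Fin.last K ∉ Bq → Disjoint Bp Fp →
    Disjoint Bq Fq → ∀ (r₀ f g : ℕ), 2 ≤ r₀ → (r₀ : ℝ) ≤ R ^ (2 * lamOf n ε) →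
    ∀ I : Finset (ℕ × ℕ × ℕ), (∀ s ∈ I, IsABCTriple s.1 s.2.1 s.2.2 ∧
      (rad (num s p) : ℝ) ≤ R ∧ (rad (num s q) : ℝ) ≤ R ∧
      (part K (num s p) (Bp ∪ Fp)ᶜ : ℝ) ≤ R ^ C ∧ (part K (num s q) (Bq ∪ Fq)ᶜ : ℝ) ≤ R ^ C ∧
      part K (num s p) Fp = f ∧ part K (num s q) Fq = g ∧
      ∃ k : ℕ, r₀ ^ k ∣ num s r ∧ R ^ (C' / 2) ≤ (r₀ : ℝ) ^ k) →
    (I.card : ℝ) ≤ D * R ^ (ε / 2) := by
  classical
  obtain ⟨N, hN⟩ : ∃ N, N = nv n := ⟨_, rfl⟩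
  have hNpos : (0 : ℝ) < N := by rw [hN]; exact nv_pos n
  obtain ⟨w, hw⟩ : ∃ w : ℕ, w = ⌈4 * (N : ℝ) ^ 2 * C / ε⌉₊ + 1 := ⟨_, rfl⟩
  have hw1 : 1 ≤ w := by omega
  have hwr : (0 : ℝ) < w := by exact_mod_cast hw1
  have hwε : (N : ℝ) ^ 2 * (C / w) ≤ ε / 4 := by
    have h1 : 4 * (N : ℝ) ^ 2 * C / ε ≤ w := by
      rw [hw]
      push_cast
      have := Nat.le_ceil (4 * (N : ℝ) ^ 2 * C / ε)
      linarith
    rw [div_le_iff₀ hε] at h1
    rw [← mul_div_assoc, div_le_iff₀ hwr]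
    linarith
  obtain ⟨lam, hlam⟩ : ∃ lam, lam = lamOf n ε := ⟨_, rfl⟩
  have hlam0 : 0 < lam := by rw [hlam]; exact lamOf_pos n hε
  have hlamε : (N : ℝ) ^ 2 * (4 * lam) = ε / 4 := by
    rw [hlam, hN]
    unfold lamOf
    have := nv_pos n
    field_simp
    ring
  obtain ⟨M0, C1, hclass⟩ := one_class n w
  rw [← hN] at hclass
  obtain ⟨Kc, hKc⟩ : ∃ Kc, Kc = KK N (N * w) := ⟨_, rfl⟩
  rw [← hKc] at hclass
  have hCw : 0 < C / w := by positivity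
  refine ⟨2 * (Kc * (C / w + 4 * lam) + 1), ?_, ?_⟩
  · have : 0 ≤ (Kc : ℝ) * (C / w + 4 * lam) := by positivity
    linarith
  intro K
  obtain ⟨Φ, hΦ⟩ : ∃ Φ : ℕ, Φ = 2 * (1 + n * (K + 1)) := ⟨_, rfl⟩
  obtain ⟨C2, hC2⟩ : ∃ C2 : ℝ, C2 = M0 * Φ + 1 := ⟨_, rfl⟩
  have hC21 : 1 ≤ C2 := by
    rw [hC2]
    have : (0 : ℝ) ≤ M0 * Φ := by positivity
    linarith
  have hC20 : 0 < C2 := by linarith
  refine ⟨((C1 : ℝ) + 1) ^ N * C2 ^ (N ^ 2), max 2 (C2 ^ Kc), by positivity, le_max_left _ _, ?_⟩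
  intro R hR p q r hpq hqr hpr Bp Bq Fp Fq hBp hBq hlp hlq hdp hdq r₀ f g hr2 hrR I hI
  rw [← hlam] at hrR
  have hR2 : 2 ≤ R := (le_max_left _ _).trans hR
  have hRC : C2 ^ Kc ≤ R := (le_max_right _ _).trans hR
  have hR0 : 0 < R := by linarith
  have hR1 : 1 ≤ R := by linarith
  have hr1 : (1 : ℝ) < r₀ := by exact_mod_cast (by omega : 1 < r₀)
  have hrp : (0 : ℝ) < r₀ := by linarith
  have hRw1 : 1 ≤ R ^ (C / w) := Real.one_le_rpow hR1 hCw.le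
  obtain ⟨h, hh2, hhlow, hhup, -⟩ := exists_scale hr2 (T := C2 * R ^ (C / w))
    (one_le_mul_of_one_le_of_one_le hC21 hRw1)
  -- size of the scale
  have hhup2 : (r₀ : ℝ) ^ h ≤ C2 * R ^ (C / w + 4 * lam) := by
    refine hhup.trans ?_
    have h1 : (r₀ : ℝ) ^ 2 ≤ R ^ (4 * lam) := by
      calc (r₀ : ℝ) ^ 2 ≤ (R ^ (2 * lam)) ^ 2 := pow_le_pow_left₀ hrp.le hrR 2
        _ = R ^ (4 * lam) := by
            rw [← Real.rpow_natCast, ← Real.rpow_mul hR0.le]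
            congr 1
            push_cast
            ring
    calc C2 * R ^ (C / w) * (r₀ : ℝ) ^ 2 ≤ C2 * R ^ (C / w) * R ^ (4 * lam) :=
          mul_le_mul_of_nonneg_left h1 (by positivity)
      _ = C2 * R ^ (C / w + 4 * lam) := by rw [mul_assoc, ← Real.rpow_add hR0]
  obtain ⟨Z, hZ⟩ : ∃ Z : ℕ, Z = ⌊R ^ C⌋₊ := ⟨_, rfl⟩
  have hRC1 : 1 ≤ R ^ C := Real.one_le_rpow hR1 (by linarith)
  have hZ1 : 1 ≤ Z := by rw [hZ]; exact Nat.le_floor (by push_cast; exact hRC1)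
  have hZle : (Z : ℝ) ≤ R ^ C := by rw [hZ]; exact Nat.floor_le (by positivity)
  have hZw : Z ≤ (r₀ ^ h) ^ w := by
    have h0 : R ^ (C / w) ≤ (r₀ : ℝ) ^ h :=
      le_trans (le_mul_of_one_le_left (by positivity) hC21) hhlow
    have h1 : R ^ C ≤ ((r₀ : ℝ) ^ h) ^ w := by
      calc R ^ C = (R ^ (C / w)) ^ w := by
            rw [← Real.rpow_natCast, ← Real.rpow_mul hR0.le]
            congr 1
            field_simp
        _ ≤ ((r₀ : ℝ) ^ h) ^ w := pow_le_pow_left₀ (by positivity) h0 _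
    exact_mod_cast hZle.trans h1
  have hM0 : M0 * Φ ≤ r₀ ^ h := by
    have h1 : ((M0 * Φ : ℕ) : ℝ) ≤ (r₀ : ℝ) ^ h := by
      refine le_trans ?_ hhlow
      push_cast
      have : (M0 : ℝ) * Φ ≤ C2 := by rw [hC2]; linarith
      nlinarith
    exact_mod_cast h1
  -- the exponent
  have hmod : ∀ k : ℕ, R ^ (2 * (Kc * (C / w + 4 * lam) + 1) / 2) ≤ (r₀ : ℝ) ^ k →
      h * Kc ≤ k := by
    intro k hk
    have h1 : (r₀ : ℝ) ^ (h * Kc) ≤ (r₀ : ℝ) ^ k := by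
      refine le_trans ?_ hk
      calc (r₀ : ℝ) ^ (h * Kc) = ((r₀ : ℝ) ^ h) ^ Kc := by rw [pow_mul]
        _ ≤ (C2 * R ^ (C / w + 4 * lam)) ^ Kc := pow_le_pow_left₀ (by positivity) hhup2 _
        _ = C2 ^ Kc * R ^ (Kc * (C / w + 4 * lam)) := by
            rw [mul_pow, ← Real.rpow_natCast (R ^ (C / w + 4 * lam)), ← Real.rpow_mul hR0.le]
            congr 2
            ring
        _ ≤ R * R ^ (Kc * (C / w + 4 * lam)) := by gcongr
        _ = R ^ (2 * (Kc * (C / w + 4 * lam) + 1) / 2) := by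
            rw [mul_div_cancel_left₀ _ (by norm_num : (2 : ℝ) ≠ 0), Real.rpow_add hR0,
              Real.rpow_one, mul_comm]
    exact (pow_le_pow_iff_right₀ hr1).mp h1
  -- the representations
  obtain ⟨a, ha, hxa⟩ := exists_repr basics Bp Fp hBp hlp hdp
  obtain ⟨b, hb, hxb⟩ := exists_repr basics Bq Fq hBq hlq hdq
  choose! x hx1 hx2 hx3 using hxa
  choose! y hy1 hy2 hy3 using hxb
  obtain ⟨e, he, hdiv⟩ := exists_sign p q r hpq hqr hpr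
  have hmain := hclass (ℕ × ℕ × ℕ) r₀ h Z Φ a b I (fun s => num s p) (fun s => num s q)
    (fun s => x (num s p)) (fun s => y (num s q)) f g e hr2 hh2 hZ1 hZw
    (by rw [hΦ]; omega) hM0 he ?_ ?_
  · have h1 : (I.card : ℝ) ≤ (((C1 : ℝ) * ((r₀ : ℝ) ^ h) ^ N)) ^ N := by exact_mod_cast hmain
    refine h1.trans ?_
    have h2 : ((r₀ : ℝ) ^ h) ^ N ≤ (C2 * R ^ (C / w + 4 * lam)) ^ N :=
      pow_le_pow_left₀ (by positivity) hhup2 _
    calc ((C1 : ℝ) * ((r₀ : ℝ) ^ h) ^ N) ^ N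
        ≤ (((C1 : ℝ) + 1) * (C2 * R ^ (C / w + 4 * lam)) ^ N) ^ N := by
          apply pow_le_pow_left₀ (by positivity)
          apply mul_le_mul (by linarith) h2 (by positivity) (by positivity)
      _ = ((C1 : ℝ) + 1) ^ N * C2 ^ (N ^ 2) * R ^ ((N : ℝ) ^ 2 * (C / w + 4 * lam)) := by
          rw [mul_pow, ← pow_mul, mul_pow, ← Real.rpow_natCast (R ^ (C / w + 4 * lam)),
            ← Real.rpow_mul hR0.le, sq N, mul_assoc]
          congr 3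
          push_cast
          ring
      _ ≤ ((C1 : ℝ) + 1) ^ N * C2 ^ (N ^ 2) * R ^ (ε / 2) := by
          apply mul_le_mul_of_nonneg_left _ (by positivity)
          apply Real.rpow_le_rpow_of_exponent_le hR1
          rw [mul_add]
          linarith
  · intro s hs
    obtain ⟨habc, h1, h2, h3, h4, h5, h6, k, h7, h8⟩ := hI s hs
    have np := num_pos habc p
    have nq := num_pos habc q
    have hk := hmod k h8
    have hk1 : k ≠ 0 := by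
      rintro rfl
      rw [pow_zero] at h8
      have : 1 < R ^ (2 * (Kc * (C / w + 4 * lam) + 1) / 2) := by
        apply Real.one_lt_rpow (by linarith)
        positivity
      linarith
    have hr0 : r₀ ∣ num s r := (dvd_pow_self _ hk1).trans h7
    have cp : (num s p).Coprime r₀ :=
      Nat.Coprime.coprime_dvd_right hr0 (num_coprime habc p r hpr)
    have cq : (num s q).Coprime r₀ :=
      Nat.Coprime.coprime_dvd_right hr0 (num_coprime habc q r hqr)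
    have hradRC : R ≤ R ^ C := by
      nth_rewrite 1 [← Real.rpow_one R]
      exact Real.rpow_le_rpow_of_exponent_le hR1 hC
    refine ⟨np, nq, num_coprime habc p q hpq, cp, cq, ?_, ?_, ?_, ?_, ?_⟩
    · refine dvd_trans ?_ (hdiv s habc)
      exact_mod_cast (pow_dvd_pow _ hk).trans h7
    · have := hx1 (num s p) np
      rwa [h5] at this
    · have := hy1 (num s q) nq
      rwa [h6] at this
    · intro l
      obtain ⟨g1, g2⟩ := hx2 (num s p) np l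
      refine ⟨g1, ?_, Nat.Coprime.coprime_dvd_left g2 cp⟩
      rw [hZ]
      exact Nat.le_floor (hx3 (num s p) np (R ^ C) (h1.trans hradRC) h3 l)
    · intro l
      obtain ⟨g1, g2⟩ := hy2 (num s q) nq l
      refine ⟨g1, ?_, Nat.Coprime.coprime_dvd_left g2 cq⟩
      rw [hZ]
      exact Nat.le_floor (hy3 (num s q) nq (R ^ C) (h2.trans hradRC) h4 l)
  · intro s hs s' hs' g1 g2
    exact num_inj (hI s hs).1 (hI s' hs').1 p q hpq g1 g2

/-- the number of the possible parts of a side of a cell -/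
theorem parts_card (K : ℕ) (ε : ℝ) (hε : 0 < ε) : ∃ D : ℝ, 0 < D ∧ ∀ X : ℕ, 1 ≤ X →
    ∀ T : Finset (ℕ × ℕ × ℕ), Cell K T → (∀ s ∈ T, s.2.2 ≤ X) → ∀ s₀ ∈ T, ∀ (p : Fin 3)
    (F : Finset (Fin (K + 1))), ((T.image fun s => part K (num s p) F).card : ℝ) ≤
      D * (X : ℝ) ^ ε * rd K (num s₀ p) F := by
  classical
  obtain ⟨D, hD, h⟩ := stmtA4' ε hε
  refine ⟨D * 2 ^ (K + 1), by positivity, fun X hX T hT hTX s₀ hs₀ p F => ?_⟩
  have h1 := h X hX (2 ^ (K + 1) * rd K (num s₀ p) F) (by positivity)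
  have h2 : (T.image fun s => part K (num s p) F) ⊆
      (Icc 1 X).filter fun d => (rad d : ℝ) ≤ 2 ^ (K + 1) * rd K (num s₀ p) F := by
    intro d hd
    rw [mem_image] at hd
    obtain ⟨s, hs, rfl⟩ := hd
    have hn := num_pos (hT.abc s hs) p
    rw [mem_filter, mem_Icc]
    refine ⟨⟨basics.part_pos _ _ _, ?_⟩, ?_⟩
    · exact (Nat.le_of_dvd hn (basics.part_dvd K _ _ hn)).trans
        ((num_le (hT.abc s hs) p).trans (hTX s hs))
    · rw [basics.rad_part K _ _ hn]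
      exact_mod_cast hT.rd_le s hs s₀ hs₀ p F
  calc ((T.image fun s => part K (num s p) F).card : ℝ)
      ≤ (((Icc 1 X).filter fun d => (rad d : ℝ) ≤ 2 ^ (K + 1) * rd K (num s₀ p) F).card : ℝ) := by
        exact_mod_cast card_le_card h2
    _ ≤ D * (X : ℝ) ^ ε * (2 ^ (K + 1) * rd K (num s₀ p) F) := h1
    _ = _ := by ring

/-- **the bound for a cell one side of which has a light and large part** -/
theorem cell_few (n : ℕ) (C ε : ℝ) (hC : 1 ≤ C) (hε : 0 < ε) : ∃ C' : ℝ, 2 ≤ C' ∧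
    ∀ (K : ℕ) (ε₂ : ℝ), 0 < ε₂ → ∃ D R0 : ℝ, 0 < D ∧ 2 ≤ R0 ∧ ∀ R : ℝ, R0 ≤ R →
    ∀ X : ℕ, 1 ≤ X → ∀ T : Finset (ℕ × ℕ × ℕ), Cell K T → (∀ s ∈ T, s.2.2 ≤ X) →
    ∀ s₀ ∈ T, ∀ (p q r : Fin 3), p ≠ q → q ≠ r → p ≠ r →
    ∀ (Bp Bq Fp Fq G : Finset (Fin (K + 1))),
    Bp.card ≤ n → Bq.card ≤ n → Fin.last K ∉ Bp → Fin.last K ∉ Bq → Disjoint Bp Fp →
    Disjoint Bq Fq →
    (∀ s ∈ T, (rad (num s p) : ℝ) ≤ R ∧ (rad (num s q) : ℝ) ≤ R ∧
      (part K (num s p) (Bp ∪ Fp)ᶜ : ℝ) ≤ R ^ C ∧ (part K (num s q) (Bq ∪ Fq)ᶜ : ℝ) ≤ R ^ C ∧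
      (rd K (num s r) G : ℝ) ≤ R ^ lamOf n ε ∧ R ^ C' ≤ (part K (num s r) G : ℝ)) →
    (T.card : ℝ) ≤ D * (X : ℝ) ^ ε₂ * R ^ ε * (rd K (num s₀ p) Fp * rd K (num s₀ q) Fq) := by
  classical
  obtain ⟨C', hC', hfib⟩ := fibre n C ε hC hε
  refine ⟨C', hC', fun K ε₂ hε₂ => ?_⟩
  obtain ⟨D1, R0, hD1, hR0, hfib⟩ := hfib K
  obtain ⟨D2, hD2, hparts⟩ := parts_card K (ε₂ / 2) (by positivity)
  refine ⟨D1 * D2 ^ 2, R0, by positivity, hR0, ?_⟩
  intro R hR X hX T hT hTX s₀ hs₀ p q r hpq hqr hpr Bp Bq Fp Fq G hBp hBq hlp hlq hdp hdq hall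
  have hR2 : 2 ≤ R := hR0.trans hR
  have hRpos : 0 < R := by linarith
  have hR1 : 1 ≤ R := by linarith
  have hX0 : (0 : ℝ) < X := by exact_mod_cast hX
  obtain ⟨lam, hlam⟩ : ∃ lam, lam = lamOf n ε := ⟨_, rfl⟩
  have hlam0 : 0 < lam := by rw [hlam]; exact lamOf_pos n hε
  rw [← hlam] at hall
  -- the bases
  have hroot : ∀ s ∈ T, ∃ r₀ : ℕ, 2 ≤ r₀ ∧ (r₀ : ℝ) ≤ R ^ (2 * lam) ∧
      ∃ k : ℕ, r₀ ^ k ∣ num s r ∧ R ^ (C' / 2) ≤ (r₀ : ℝ) ^ k := by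
    intro s hs
    obtain ⟨-, -, -, -, h5, h6⟩ := hall s hs
    have hn := num_pos (hT.abc s hs) r
    have hpos := basics.part_pos K (num s r) G
    have hm2 : 2 ≤ part K (num s r) G := by
      by_contra hcon
      have h7 : part K (num s r) G = 1 := by omega
      rw [h7, Nat.cast_one] at h6
      have : 1 < R ^ C' := Real.one_lt_rpow (by linarith) (by linarith)
      linarith
    have hrad : (rad (part K (num s r) G) : ℝ) ≤ R ^ lam := by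
      rw [basics.rad_part K _ _ hn]
      exact h5
    obtain ⟨r₀, k, g1, g2, g3, g4⟩ := exists_root (by linarith : 1 < R) hlam0 hm2 hrad
    refine ⟨r₀, g1, g2, k, g3.trans (basics.part_dvd K _ _ hn), le_trans ?_ g4⟩
    calc R ^ (C' / 2) = (R ^ C') ^ ((1 : ℝ) / 2) := by
          rw [← Real.rpow_mul hRpos.le]
          congr 1
          ring
      _ ≤ _ := Real.rpow_le_rpow (by positivity) h6 (by norm_num)
  choose! ρ hρ2 hρR hρk using hroot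
  obtain ⟨Ρ, hΡ⟩ : ∃ Ρ : ℕ, Ρ = ⌊R ^ (2 * lam)⌋₊ := ⟨_, rfl⟩
  have hΡle : (Ρ : ℝ) ≤ R ^ (2 * lam) := by rw [hΡ]; exact Nat.floor_le (by positivity)
  have hmaps : ∀ s ∈ T, (ρ s, part K (num s p) Fp, part K (num s q) Fq) ∈
      (Icc 1 Ρ) ×ˢ ((T.image fun s => part K (num s p) Fp) ×ˢ
        (T.image fun s => part K (num s q) Fq)) := by
    intro s hs
    rw [mem_product, mem_product, mem_Icc]
    refine ⟨⟨(by omega : 1 ≤ 2).trans (hρ2 s hs), ?_⟩, mem_image_of_mem _ hs,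
      mem_image_of_mem _ hs⟩
    rw [hΡ]
    exact Nat.le_floor (hρR s hs)
  have hcard := card_eq_sum_card_fiberwise
    (f := fun s => (ρ s, part K (num s p) Fp, part K (num s q) Fq)) (s := T)
    (t := (Icc 1 Ρ) ×ˢ ((T.image fun s => part K (num s p) Fp) ×ˢ
        (T.image fun s => part K (num s q) Fq))) (fun s hs => mem_coe.2 (hmaps s (mem_coe.1 hs)))
  have hfibre : ∀ t ∈ (Icc 1 Ρ) ×ˢ ((T.image fun s => part K (num s p) Fp) ×ˢ
        (T.image fun s => part K (num s q) Fq)),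
      ((T.filter fun s => (ρ s, part K (num s p) Fp, part K (num s q) Fq) = t).card : ℝ) ≤
        D1 * R ^ (ε / 2) := by
    rintro ⟨r₀, f, g⟩ _
    rcases (T.filter fun s => (ρ s, part K (num s p) Fp, part K (num s q) Fq) =
      (r₀, f, g)).eq_empty_or_nonempty with he | ⟨s1, hs1⟩
    · rw [he]
      simp only [card_empty, Nat.cast_zero]
      positivity
    rw [mem_filter] at hs1
    have hr0 : ρ s1 = r₀ := congrArg Prod.fst hs1.2
    refine hfib R hR p q r hpq hqr hpr Bp Bq Fp Fq hBp hBq hlp hlq hdp hdq r₀ f g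
      (by rw [← hr0]; exact hρ2 s1 hs1.1) (by rw [← hr0, ← hlam]; exact hρR s1 hs1.1) _ ?_
    intro s hs
    obtain ⟨hsT, hst⟩ := mem_filter.mp hs
    obtain ⟨h1, h2, h3, h4, -, -⟩ := hall s hsT
    simp only [Prod.mk.injEq] at hst
    refine ⟨hT.abc s hsT, h1, h2, h3, h4, hst.2.1, hst.2.2, ?_⟩
    rw [← hst.1]
    exact hρk s hsT
  have h1 : (T.card : ℝ) ≤ ((Icc 1 Ρ) ×ˢ ((T.image fun s => part K (num s p) Fp) ×ˢ
        (T.image fun s => part K (num s q) Fq))).card * (D1 * R ^ (ε / 2)) := by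
    rw [hcard]
    push_cast
    rw [← nsmul_eq_mul]
    exact Finset.sum_le_card_nsmul _ _ _ hfibre
  refine h1.trans ?_
  rw [card_product, card_product, Nat.card_Icc]
  push_cast
  have e1 := hparts X hX T hT hTX s₀ hs₀ p Fp
  have e2 := hparts X hX T hT hTX s₀ hs₀ q Fq
  have hXX : (X : ℝ) ^ (ε₂ / 2) * (X : ℝ) ^ (ε₂ / 2) = (X : ℝ) ^ ε₂ := by
    rw [← Real.rpow_add hX0]
    congr 1
    ring
  have hlamε : 2 * lam ≤ ε / 2 := by
    rw [hlam]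
    unfold lamOf
    have hN1 : (1 : ℝ) ≤ (nv n : ℝ) := by
      have : 1 ≤ nv n := by unfold nv; omega
      exact_mod_cast this
    have hN2 : (1 : ℝ) ≤ (nv n : ℝ) ^ 2 := one_le_pow₀ hN1
    rw [← mul_div_assoc, div_le_div_iff₀ (by positivity) (by norm_num)]
    nlinarith
  have hRR : R ^ (2 * lam) * R ^ (ε / 2) ≤ R ^ ε := by
    rw [← Real.rpow_add hRpos]
    apply Real.rpow_le_rpow_of_exponent_le hR1
    linarith
  have hP : ((Ρ + 1 - 1 : ℕ) : ℝ) ≤ R ^ (2 * lam) := by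
    rw [Nat.add_sub_cancel]
    exact hΡle
  have n1 : (0 : ℝ) ≤ ((T.image fun s => part K (num s p) Fp).card : ℝ) := Nat.cast_nonneg _
  have n2 : (0 : ℝ) ≤ ((T.image fun s => part K (num s q) Fq).card : ℝ) := Nat.cast_nonneg _
  have n3 : (0 : ℝ) ≤ rd K (num s₀ p) Fp := Nat.cast_nonneg _
  have n4 : (0 : ℝ) ≤ rd K (num s₀ q) Fq := Nat.cast_nonneg _
  calc ((Ρ + 1 - 1 : ℕ) : ℝ) * (((T.image fun s => part K (num s p) Fp).card : ℝ) *
        ((T.image fun s => part K (num s q) Fq).card : ℝ)) * (D1 * R ^ (ε / 2))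
      ≤ R ^ (2 * lam) * ((D2 * (X : ℝ) ^ (ε₂ / 2) * rd K (num s₀ p) Fp) *
        (D2 * (X : ℝ) ^ (ε₂ / 2) * rd K (num s₀ q) Fq)) * (D1 * R ^ (ε / 2)) := by
        gcongr
    _ = D1 * D2 ^ 2 * ((X : ℝ) ^ (ε₂ / 2) * (X : ℝ) ^ (ε₂ / 2)) *
          (R ^ (2 * lam) * R ^ (ε / 2)) * (rd K (num s₀ p) Fp * rd K (num s₀ q) Fq) := by ring
    _ ≤ D1 * D2 ^ 2 * (X : ℝ) ^ ε₂ * R ^ ε * (rd K (num s₀ p) Fp * rd K (num s₀ q) Fq) := by
        rw [hXX]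
        gcongr

end Pool.Agent.Helper5.Third
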