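import Pool.Agent.Helper5.Third.Scale
import Pool.Agent.Helper86.Half.Pairs

/-!
# Counting coprime pairs whose sum is at least a large power of the radical
-/

set_option autoImplicit false

namespace Pool.Agent.Helper5.Third

open Finset Pool.Agent.H785R2.ABC Pool.Agent.H785R2.ABC.Fin1
open Pool.Agent.H705R2.ABC

/-- the trivial bound -/
theorem cell_triv (K : ℕ) (ε₂ : ℝ) (hε₂ : 0 < ε₂) : ∃ D : ℝ, 0 < D ∧ ∀ R : ℝ, 1 ≤ R →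
    ∀ X : ℕ, 1 ≤ X → ∀ T : Finset (ℕ × ℕ × ℕ), Cell K T → (∀ s ∈ T, s.2.2 ≤ X ∧
      (rad (s.1 * s.2.1 * s.2.2) : ℝ) ≤ R) →
    (T.card : ℝ) ≤ D * (X : ℝ) ^ ε₂ * R ^ ((2 : ℝ) / 3) := by
  obtain ⟨D, hD, h⟩ := stmtTr' K ε₂ hε₂
  refine ⟨D, hD, ?_⟩
  intro R hR X hX T hT hs
  have hX0 : (0 : ℝ) < X := by exact_mod_cast hX
  rcases T.eq_empty_or_nonempty with h0 | ⟨s, hs0⟩
  · rw [h0]
    simp only [card_empty, Nat.cast_zero]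
    positivity
  have habc := hT.abc s hs0
  have hcX : (s.2.2 : ℝ) ≤ X := by exact_mod_cast (hs s hs0).1
  have hprod : ((rad (num s 0) : ℝ) * (rad (num s 1) * rad (num s 2))) ≤ R := by
    refine le_trans (le_of_eq ?_) (hs s hs0).2
    exact_mod_cast rad3 habc 0 1 2 (by decide) (by decide) (by decide)
  have hpos : ∀ j, (0 : ℝ) < rad (num s j) := fun j => by exact_mod_cast rad_pos _
  have hR23 : 0 < R ^ ((2 : ℝ) / 3) := by positivity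
  have h3 : (R ^ ((2 : ℝ) / 3)) ^ 3 = R ^ 2 := by
    rw [← Real.rpow_natCast, ← Real.rpow_mul (by linarith), ← Real.rpow_natCast]
    norm_num
  obtain ⟨p, q, hpq, hle⟩ : ∃ p q : Fin 3, p ≠ q ∧
      (rad (num s p) : ℝ) * rad (num s q) ≤ R ^ ((2 : ℝ) / 3) := by
    by_contra hcon
    push Not at hcon
    have h01 := hcon 0 1 (by decide)
    have h02 := hcon 0 2 (by decide)
    have h12 := hcon 1 2 (by decide)
    have e1 : (R ^ ((2 : ℝ) / 3)) ^ 3 < ((rad (num s 0) : ℝ) * rad (num s 1)) *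
        ((rad (num s 0) : ℝ) * rad (num s 2)) * ((rad (num s 1) : ℝ) * rad (num s 2)) := by
      calc (R ^ ((2 : ℝ) / 3)) ^ 3 = R ^ ((2 : ℝ) / 3) * R ^ ((2 : ℝ) / 3) * R ^ ((2 : ℝ) / 3) := by
            ring
        _ < _ := by gcongr
    rw [h3] at e1
    have e2 : ((rad (num s 0) : ℝ) * rad (num s 1)) *
        ((rad (num s 0) : ℝ) * rad (num s 2)) * ((rad (num s 1) : ℝ) * rad (num s 2)) =
        ((rad (num s 0) : ℝ) * (rad (num s 1) * rad (num s 2))) ^ 2 := by ring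
    rw [e2] at e1
    have e3 : ((rad (num s 0) : ℝ) * (rad (num s 1) * rad (num s 2))) ^ 2 ≤ R ^ 2 := by
      apply pow_le_pow_left₀ _ hprod
      have := hpos 0
      have := hpos 1
      have := hpos 2
      positivity
    linarith
  have h1 := h T hT s hs0 p q hpq
  rw [basics.rd_univ, basics.rd_univ] at h1
  calc (T.card : ℝ) ≤ D * (s.2.2 : ℝ) ^ ε₂ * ((rad (num s p) : ℝ) * rad (num s q)) := h1
    _ ≤ D * (X : ℝ) ^ ε₂ * R ^ ((2 : ℝ) / 3) := by gcongr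

/-- **all cells** -/
theorem cell_third (ε : ℝ) (hε : 0 < ε) (hε1 : ε ≤ 1) : ∃ κ : ℝ, 0 < κ ∧
    ∀ ε₂ : ℝ, 0 < ε₂ → ∃ K : ℕ, ∃ D : ℝ, 0 < D ∧ ∀ R : ℝ, 1 ≤ R → ∀ X : ℕ, 1 ≤ X →
    ∀ T : Finset (ℕ × ℕ × ℕ), Cell K T → (∀ s ∈ T, s.2.2 ≤ X ∧
      (rad (s.1 * s.2.1 * s.2.2) : ℝ) ≤ R ∧ R ^ κ ≤ (s.2.2 : ℝ)) →
    (T.card : ℝ) ≤ D * (X : ℝ) ^ ε₂ * R ^ ((1 : ℝ) / 3 + 2 * ε) := by
  obtain ⟨κ, hκ, h⟩ := cell_scale ε hε hε1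
  refine ⟨κ, hκ, fun ε₂ hε₂ => ?_⟩
  obtain ⟨K, h⟩ := h (2 / ε₂) ε₂ (by positivity) hε₂
  obtain ⟨D, R0, hD, hR0, h⟩ := h K le_rfl
  obtain ⟨D', hD', htr⟩ := cell_triv K (ε₂ / 2) (by positivity)
  refine ⟨K, D + D' * R0 ^ ((2 : ℝ) / 3) + D', by positivity, ?_⟩
  intro R hR X hX T hT hs
  have hRpos : 0 < R := by linarith
  have hX1 : (1 : ℝ) ≤ X := by exact_mod_cast hX
  have hX0 : (0 : ℝ) < X := by linarith
  have hXh : 1 ≤ (X : ℝ) ^ (ε₂ / 2) := Real.one_le_rpow hX1 (by positivity)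
  have hXε : 1 ≤ (X : ℝ) ^ ε₂ := Real.one_le_rpow hX1 hε₂.le
  have hsq : (X : ℝ) ^ (ε₂ / 2) * (X : ℝ) ^ (ε₂ / 2) = (X : ℝ) ^ ε₂ := by
    rw [← Real.rpow_add hX0]
    congr 1
    ring
  have hhalf : (X : ℝ) ^ (ε₂ / 2) ≤ (X : ℝ) ^ ε₂ := by nlinarith
  obtain ⟨y, hy⟩ : ∃ y : ℝ, y = R ^ ((1 : ℝ) / 3 + 2 * ε) := ⟨_, rfl⟩
  have hy1 : 1 ≤ y := by rw [hy]; exact Real.one_le_rpow hR (by positivity)
  have h1 := htr R hR X hX T hT (fun s h => ⟨(hs s h).1, (hs s h).2.1⟩)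
  rw [← hy]
  have hR02 : 0 < R0 ^ ((2 : ℝ) / 3) := by positivity
  by_cases hRR : R0 ≤ R
  · by_cases hXR : (X : ℝ) ≤ R ^ (2 / ε₂)
    · have h2 := h R hRR X hX hXR T hT hs
      rw [← hy] at h2
      refine h2.trans ?_
      have h3 : D ≤ D + D' * R0 ^ ((2 : ℝ) / 3) + D' := by
        have : 0 < D' * R0 ^ ((2 : ℝ) / 3) := by positivity
        linarith
      gcongr
    · push Not at hXR
      have h2 : R ^ ((2 : ℝ) / 3) ≤ (X : ℝ) ^ (ε₂ / 2) := by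
        calc R ^ ((2 : ℝ) / 3) ≤ R ^ ((2 / ε₂) * (ε₂ / 2)) := by
              apply Real.rpow_le_rpow_of_exponent_le hR
              field_simp
              norm_num
          _ = (R ^ (2 / ε₂)) ^ (ε₂ / 2) := by rw [Real.rpow_mul hRpos.le]
          _ ≤ (X : ℝ) ^ (ε₂ / 2) := Real.rpow_le_rpow (by positivity) hXR.le (by positivity)
      calc (T.card : ℝ) ≤ D' * (X : ℝ) ^ (ε₂ / 2) * R ^ ((2 : ℝ) / 3) := h1
        _ ≤ D' * (X : ℝ) ^ (ε₂ / 2) * (X : ℝ) ^ (ε₂ / 2) := by gcongr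
        _ = D' * (X : ℝ) ^ ε₂ * 1 := by rw [mul_assoc, hsq, mul_one]
        _ ≤ (D + D' * R0 ^ ((2 : ℝ) / 3) + D') * (X : ℝ) ^ ε₂ * y := by
            gcongr
            have : 0 < D' * R0 ^ ((2 : ℝ) / 3) := by positivity
            linarith
  · push Not at hRR
    calc (T.card : ℝ) ≤ D' * (X : ℝ) ^ (ε₂ / 2) * R ^ ((2 : ℝ) / 3) := h1
      _ ≤ D' * (X : ℝ) ^ ε₂ * R0 ^ ((2 : ℝ) / 3) := by gcongr
      _ = (D' * R0 ^ ((2 : ℝ) / 3)) * (X : ℝ) ^ ε₂ * 1 := by ring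
      _ ≤ (D + D' * R0 ^ ((2 : ℝ) / 3) + D') * (X : ℝ) ^ ε₂ * y := by
          gcongr
          linarith

/-- the triples with `rad ≤ R` and `c ≥ R ^ κ₀` -/
theorem block (ε : ℝ) (hε : 0 < ε) (hε1 : ε ≤ 1) : ∃ κ₀ : ℝ, 0 < κ₀ ∧ ∀ ε₂ : ℝ, 0 < ε₂ →
    ∃ C : ℝ, 0 < C ∧ ∀ X : ℕ, 1 ≤ X →
    ∀ R : ℝ, 1 ≤ R → ∀ S : Finset (ℕ × ℕ × ℕ),
      (∀ s ∈ S, IsABCTriple s.1 s.2.1 s.2.2 ∧ s.2.2 ≤ X ∧ s.1 ≤ s.2.1 ∧
        (rad (s.1 * s.2.1 * s.2.2) : ℝ) ≤ R ∧ R ^ κ₀ ≤ (s.2.2 : ℝ)) →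
      (S.card : ℝ) ≤ C * (X : ℝ) ^ ε₂ * R ^ ((1 : ℝ) / 3 + 2 * ε) := by
  classical
  obtain ⟨κ, hκ, h⟩ := cell_third ε hε hε1
  refine ⟨κ, hκ, fun ε₂ hε₂ => ?_⟩
  obtain ⟨K, D, hD, h⟩ := h (ε₂ / 2) (by positivity)
  obtain ⟨C, hC, hsig⟩ := Pool.Agent.Helper86.Half.sig_count basics K (ε₂ / 2) (by positivity)
  refine ⟨C * D, by positivity, ?_⟩
  intro X hX R hR S hS
  have hX0 : (0 : ℝ) < X := by exact_mod_cast hX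
  have h1 := hsig X hX S (fun s hs => ⟨(hS s hs).1, (hS s hs).2.1⟩)
    (D * (X : ℝ) ^ (ε₂ / 2) * R ^ ((1 : ℝ) / 3 + 2 * ε)) (fun T hT hsg => by
      have hcell := cell_of basics K T (fun t ht => (hS t (hT ht)).1)
        (fun t ht => (hS t (hT ht)).2.2.1) hsg
      exact h R hR X hX T hcell (fun s hs => by
        obtain ⟨q1, q2, q3, q4, q5⟩ := hS s (hT hs)
        exact ⟨q2, q4, q5⟩))
  refine h1.trans (le_of_eq ?_)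
  have e : (X : ℝ) ^ ε₂ = (X : ℝ) ^ (ε₂ / 2) * (X : ℝ) ^ (ε₂ / 2) := by
    rw [← Real.rpow_add hX0]
    congr 1
    ring
  rw [e]
  ring

/-- pairs with `rad ≤ R` and `R ^ κ₀ ≤ a + b` -/
theorem block_pairs (ε : ℝ) (hε : 0 < ε) (hε1 : ε ≤ 1) : ∃ κ₀ : ℝ, 0 < κ₀ ∧ ∀ ε₂ : ℝ, 0 < ε₂ →
    ∃ C : ℝ, 0 < C ∧ ∀ X : ℕ, 1 ≤ X →
    ∀ R : ℝ, 1 ≤ R → ∀ S : Finset (ℕ × ℕ),
      (∀ t ∈ S, 0 < t.1 ∧ 0 < t.2 ∧ Nat.Coprime t.1 t.2 ∧ t.1 + t.2 ≤ X ∧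
        (rad (t.1 * t.2 * (t.1 + t.2)) : ℝ) ≤ R ∧ R ^ κ₀ ≤ ((t.1 + t.2 : ℕ) : ℝ)) →
      (S.card : ℝ) ≤ C * (X : ℝ) ^ ε₂ * R ^ ((1 : ℝ) / 3 + 2 * ε) := by
  classical
  obtain ⟨κ₀, hκ₀, h⟩ := block ε hε hε1
  refine ⟨κ₀, hκ₀, fun ε₂ hε₂ => ?_⟩
  obtain ⟨C, hC, hb⟩ := h ε₂ hε₂
  refine ⟨2 * C, by positivity, fun X hX R hR S hS => ?_⟩
  have e : 2 * C * (X : ℝ) ^ ε₂ * R ^ ((1 : ℝ) / 3 + 2 * ε) =
      2 * (C * (X : ℝ) ^ ε₂ * R ^ ((1 : ℝ) / 3 + 2 * ε)) := by ring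
  rw [e]
  refine Pool.Agent.H925R.Szpiro.card_le_two_halves S _ (fun t => 0 < t.1 ∧ 0 < t.2 ∧
    Nat.Coprime t.1 t.2 ∧ t.1 + t.2 ≤ X ∧
        (rad (t.1 * t.2 * (t.1 + t.2)) : ℝ) ≤ R ∧ R ^ κ₀ ≤ ((t.1 + t.2 : ℕ) : ℝ)) hS ?_ ?_
  · rintro ⟨a, b⟩ ⟨h1, h2, h3, h4, h5, h6⟩
    simp only at h1 h2 h3 h4 h5 h6 ⊢
    refine ⟨h2, h1, h3.symm, by omega, ?_, ?_⟩
    · rw [mul_comm b a, add_comm b a]
      exact h5
    · rw [add_comm b a]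
      exact h6
  · intro T hT
    have hinj : Set.InjOn (fun t : ℕ × ℕ => (t.1, t.2, t.1 + t.2)) (T : Set (ℕ × ℕ)) := by
      rintro ⟨a, b⟩ _ ⟨a', b'⟩ _ he
      simp only [Prod.mk.injEq] at he
      exact Prod.ext he.1 he.2.1
    rw [← card_image_of_injOn hinj]
    refine hb X hX R hR _ (fun s hs => ?_)
    obtain ⟨t, ht, rfl⟩ := mem_image.1 hs
    obtain ⟨⟨h1, h2, h3, h4, h5, h6⟩, h7⟩ := hT t ht
    refine ⟨⟨h1, h2, by simp only; omega, rfl, h3, ?_, ?_⟩, h4, h7, h5, h6⟩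
    · show Nat.Coprime t.1 (t.1 + t.2)
      simpa using h3
    · show Nat.Coprime t.2 (t.1 + t.2)
      simpa using h3.symm

/-- **the count**: pairs with `rad ≤ Y` and `c₀ rad ^ κ₀ ≤ a + b ≤ X` -/
theorem count_third (θ : ℝ) (hθ : 1 / 3 < θ) : ∃ κ₀ : ℝ, 0 < κ₀ ∧ ∀ c₀ ε : ℝ, 0 < c₀ → 0 < ε →
    ∃ C : ℝ, 0 < C ∧
    ∀ X : ℕ, 1 ≤ X → ∀ Y : ℝ, 1 ≤ Y → ∀ S : Finset (ℕ × ℕ),
      (∀ t ∈ S, 0 < t.1 ∧ 0 < t.2 ∧ Nat.Coprime t.1 t.2 ∧ t.1 + t.2 ≤ X ∧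
        (rad (t.1 * t.2 * (t.1 + t.2)) : ℝ) ≤ Y ∧
        c₀ * (rad (t.1 * t.2 * (t.1 + t.2)) : ℝ) ^ κ₀ ≤ ((t.1 + t.2 : ℕ) : ℝ)) →
      (S.card : ℝ) ≤ C * (X : ℝ) ^ ε * Y ^ θ := by
  classical
  obtain ⟨ε₁, hε₁⟩ : ∃ ε₁ : ℝ, ε₁ = min 1 ((θ - 1 / 3) / 2) := ⟨_, rfl⟩
  have hε₁0 : 0 < ε₁ := by
    rw [hε₁]
    exact lt_min (by norm_num) (by linarith)
  have hε₁1 : ε₁ ≤ 1 := by rw [hε₁]; exact min_le_left _ _
  have hε₁θ : 1 / 3 + 2 * ε₁ ≤ θ := by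
    have : ε₁ ≤ (θ - 1 / 3) / 2 := by rw [hε₁]; exact min_le_right _ _
    linarith
  obtain ⟨κ₀, hκ₀, h⟩ := block_pairs ε₁ hε₁0 hε₁1
  refine ⟨κ₀ + 1, by positivity, fun c₀ ε hc₀ hε => ?_⟩
  obtain ⟨C1, hC1, hb⟩ := h (ε / 2) (by positivity)
  obtain ⟨C2, hC2, ht⟩ := Pool.Agent.H925R.Szpiro.triv_pairs ε hε
  obtain ⟨R₀, hR₀⟩ : ∃ R₀ : ℝ, R₀ = max 2 (2 ^ (κ₀ + 1) / c₀) := ⟨_, rfl⟩
  have hR₀2 : 2 ≤ R₀ := by rw [hR₀]; exact le_max_left _ _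
  obtain ⟨η, hη⟩ : ∃ η : ℝ, η = ε / 6 := ⟨_, rfl⟩
  have hη0 : 0 < η := by rw [hη]; positivity
  refine ⟨C2 * R₀ ^ ((2 : ℝ) / 3) + (1 + 2 / η) * (C1 * 2 ^ θ), by positivity, ?_⟩
  intro X hX Y hY S hS
  have hX1 : (1 : ℝ) ≤ X := by exact_mod_cast hX
  have hX0 : (0 : ℝ) < X := by linarith
  have hYh : 1 ≤ Y ^ θ := Real.one_le_rpow hY (by linarith)
  obtain ⟨ρ, hρ⟩ : ∃ ρ : ℕ × ℕ → ℕ, ρ = fun t => rad (t.1 * t.2 * (t.1 + t.2)) := ⟨_, rfl⟩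
  have hρt : ∀ t, ρ t = rad (t.1 * t.2 * (t.1 + t.2)) := fun t => by rw [hρ]
  obtain ⟨S0, hS0⟩ : ∃ S0, S0 = S.filter (fun t => (ρ t : ℝ) ≤ R₀) := ⟨_, rfl⟩
  obtain ⟨S1, hS1⟩ : ∃ S1, S1 = S.filter (fun t => ¬ (ρ t : ℝ) ≤ R₀) := ⟨_, rfl⟩
  have hsplit : S.card = S0.card + S1.card := by
    rw [hS0, hS1]
    exact (card_filter_add_card_filter_not _).symm
  have h0 : (S0.card : ℝ) ≤ C2 * R₀ ^ ((2 : ℝ) / 3) * (X : ℝ) ^ ε := by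
    have h1 := ht X hX R₀ (by linarith) S0 (fun t ht => by
      rw [hS0] at ht
      obtain ⟨ht1, ht2⟩ := mem_filter.1 ht
      obtain ⟨q1, q2, q3, q4, q5, q6⟩ := hS t ht1
      rw [hρt] at ht2
      exact ⟨q1, q2, q3, q4, ht2⟩)
    linarith [mul_comm (C2 * (X : ℝ) ^ ε) (R₀ ^ ((2 : ℝ) / 3)),
      mul_right_comm C2 ((X : ℝ) ^ ε) (R₀ ^ ((2 : ℝ) / 3))]
  -- dyadic decomposition
  obtain ⟨N, hN⟩ : ∃ N : ℕ, N = Nat.log 2 (X ^ 3) + 1 := ⟨_, rfl⟩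
  have hmaps : ∀ t ∈ S1, Nat.log 2 (ρ t) ∈ range N := by
    intro t ht
    rw [hS1] at ht
    obtain ⟨ht1, ht2⟩ := mem_filter.1 ht
    obtain ⟨q1, q2, q3, q4, q5, q6⟩ := hS t ht1
    rw [mem_range, hN, Nat.lt_succ_iff]
    apply Nat.log_mono_right
    have h1 : ρ t ≤ t.1 * t.2 * (t.1 + t.2) := by
      rw [hρt]
      exact Nat.le_of_dvd (by positivity) (Nat.prod_primeFactors_dvd _)
    calc ρ t ≤ t.1 * t.2 * (t.1 + t.2) := h1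
      _ ≤ X * X * X := by gcongr <;> omega
      _ = X ^ 3 := by ring
  have hfib : ∀ k ∈ range N, ((S1.filter (fun t => Nat.log 2 (ρ t) = k)).card : ℝ) ≤
      C1 * 2 ^ θ * (X : ℝ) ^ (ε / 2) * Y ^ θ := by
    intro k _
    rcases (S1.filter (fun t => Nat.log 2 (ρ t) = k)).eq_empty_or_nonempty with he | ⟨t0, ht0⟩
    · rw [he]
      simp only [card_empty, Nat.cast_zero]
      positivity
    obtain ⟨R, hR⟩ : ∃ R : ℝ, R = 2 ^ (k + 1) := ⟨_, rfl⟩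
    have hρb : ∀ t ∈ S1.filter (fun t => Nat.log 2 (ρ t) = k), R ≤ 2 * (ρ t : ℝ) ∧
        (ρ t : ℝ) ≤ R := by
      intro t ht
      have h1 := (mem_filter.1 ht).2
      have h2 := Nat.pow_log_le_self 2 (x := ρ t) (by
        rw [hρt]
        exact (rad_pos _).ne')
      have h3 := Nat.lt_pow_succ_log_self (b := 2) (by norm_num) (ρ t)
      rw [h1] at h2 h3
      have h2' : (2 : ℝ) ^ k ≤ ρ t := by exact_mod_cast h2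
      have h3' : (ρ t : ℝ) < 2 ^ (k + 1) := by exact_mod_cast h3
      refine ⟨?_, by rw [hR]; exact h3'.le⟩
      rw [hR, pow_succ]
      linarith
    have hR2 : 2 ≤ R := by
      rw [hR, pow_succ]
      have : (1 : ℝ) ≤ 2 ^ k := one_le_pow₀ (by norm_num)
      linarith
    have hR0 : 0 < R := by linarith
    have hRY : R ≤ 2 * Y := by
      have h1 := (hρb t0 ht0).1
      have ht1 := (mem_filter.1 ht0).1
      rw [hS1] at ht1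
      have h2 := (hS t0 (mem_filter.1 ht1).1).2.2.2.2.1
      have h3 : (ρ t0 : ℝ) ≤ Y := by rw [hρt]; exact h2
      linarith
    have h1 := hb X hX R (by linarith) (S1.filter (fun t => Nat.log 2 (ρ t) = k)) (fun t ht => by
      have ht0 := (mem_filter.1 ht).1
      rw [hS1] at ht0
      have ht1 := (mem_filter.1 ht0).1
      have ht2 := (mem_filter.1 ht0).2
      obtain ⟨q1, q2, q3, q4, q5, q6⟩ := hS t ht1
      obtain ⟨g1, g2⟩ := hρb t ht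
      rw [← hρt] at q6
      refine ⟨q1, q2, q3, q4, by rw [← hρt]; exact g2, le_trans ?_ q6⟩
      -- `R ^ κ₀ ≤ c₀ ρ ^ (κ₀ + 1)`
      have g3 : R₀ < R := by
        push Not at ht2
        exact lt_of_lt_of_le ht2 g2
      have g4 : 2 ^ (κ₀ + 1) / c₀ ≤ R := by
        refine le_trans ?_ g3.le
        rw [hR₀]
        exact le_max_right _ _
      have g5 : (R / 2) ^ (κ₀ + 1) ≤ (ρ t : ℝ) ^ (κ₀ + 1) :=
        Real.rpow_le_rpow (by positivity) (by linarith) (by positivity)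
      have g6 : R ^ κ₀ ≤ c₀ * (R / 2) ^ (κ₀ + 1) := by
        rw [Real.div_rpow hR0.le (by norm_num), Real.rpow_add_one hR0.ne']
        rw [div_le_iff₀ hc₀] at g4
        have g7 : (0 : ℝ) < 2 ^ (κ₀ + 1) := by positivity
        rw [mul_div_assoc', le_div_iff₀ g7]
        have g8 : 0 < R ^ κ₀ := by positivity
        nlinarith
      exact g6.trans (mul_le_mul_of_nonneg_left g5 hc₀.le))
    refine h1.trans ?_
    have h2 : R ^ ((1 : ℝ) / 3 + 2 * ε₁) ≤ 2 ^ θ * Y ^ θ := by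
      rw [← Real.mul_rpow (by norm_num) (by linarith)]
      calc R ^ ((1 : ℝ) / 3 + 2 * ε₁) ≤ R ^ θ :=
            Real.rpow_le_rpow_of_exponent_le (by linarith) hε₁θ
        _ ≤ (2 * Y) ^ θ := Real.rpow_le_rpow hR0.le hRY (by linarith)
    calc C1 * (X : ℝ) ^ (ε / 2) * R ^ ((1 : ℝ) / 3 + 2 * ε₁) ≤
          C1 * (X : ℝ) ^ (ε / 2) * (2 ^ θ * Y ^ θ) := by gcongr
      _ = _ := by ring
  have hNle : (N : ℝ) ≤ (1 + 2 / η) * (X : ℝ) ^ (ε / 2) := by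
    have h1 := log_le (X ^ 3) (Nat.one_le_pow _ _ hX) η hη0
    rw [hN]
    refine h1.trans (le_of_eq ?_)
    congr 1
    push_cast
    rw [← Real.rpow_natCast, ← Real.rpow_mul hX0.le]
    congr 1
    rw [hη]
    push_cast
    ring
  have h1 : (S1.card : ℝ) ≤ (1 + 2 / η) * (C1 * 2 ^ θ) * (X : ℝ) ^ ε *
      Y ^ θ := by
    have e1 : S1.card = ∑ k ∈ range N, (S1.filter (fun t => Nat.log 2 (ρ t) = k)).card :=
      card_eq_sum_card_fiberwise (fun t ht => hmaps t ht)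
    calc (S1.card : ℝ) = ∑ k ∈ range N, ((S1.filter (fun t => Nat.log 2 (ρ t) = k)).card : ℝ) := by
          rw [e1]; push_cast; rfl
      _ ≤ ∑ k ∈ range N, C1 * 2 ^ θ * (X : ℝ) ^ (ε / 2) * Y ^ θ :=
          sum_le_sum hfib
      _ = N * (C1 * 2 ^ θ * (X : ℝ) ^ (ε / 2) * Y ^ θ) := by
          rw [sum_const, card_range, nsmul_eq_mul]
      _ ≤ ((1 + 2 / η) * (X : ℝ) ^ (ε / 2)) *
          (C1 * 2 ^ θ * (X : ℝ) ^ (ε / 2) * Y ^ θ) := by gcongr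
      _ = (1 + 2 / η) * (C1 * 2 ^ θ) * ((X : ℝ) ^ (ε / 2) * (X : ℝ) ^ (ε / 2)) *
          Y ^ θ := by ring
      _ = _ := by
          rw [← Real.rpow_add hX0]
          congr 3
          ring
  rw [hsplit]
  push_cast
  have h2 : C2 * R₀ ^ ((2 : ℝ) / 3) * (X : ℝ) ^ ε ≤
      C2 * R₀ ^ ((2 : ℝ) / 3) * (X : ℝ) ^ ε * Y ^ θ :=
    le_mul_of_one_le_right (by positivity) hYh
  calc (S0.card : ℝ) + S1.card ≤ C2 * R₀ ^ ((2 : ℝ) / 3) * (X : ℝ) ^ ε * Y ^ θ +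
        (1 + 2 / η) * (C1 * 2 ^ θ) * (X : ℝ) ^ ε * Y ^ θ :=
        add_le_add (h0.trans h2) h1
    _ = _ := by ring

end Pool.Agent.Helper5.Third
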