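import Pool.Agent.Helper5.Third.CellQ
import Pool.Graph.R_seed8.Y913.Zm.Fn

/-!
# Cells all sides of which are light or heavy
-/

set_option autoImplicit false

namespace Pool.Agent.Helper5.Third

open Finset Pool.Agent.H785R2.ABC Pool.Agent.H785R2.ABC.Fin1 Pool.Agent.Y913
open Pool.Agent.H705R2.ABC Pool.Agent.Y913.Nb Pool.Agent.Y913.Zm

theorem nb_of_classes {K n : ℕ} (A : Finset (Fin (K + 1))) (hA : A.card ≤ n)
    (hl : Fin.last K ∉ A) {m : ℕ} (hm : 1 ≤ m) {Z : ℝ} (h1 : (rad m : ℝ) ≤ Z)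
    (h2 : (part K m Aᶜ : ℝ) ≤ Z) : NB (n + 1) Z m := by
  obtain ⟨a, -, ha⟩ := exists_repr basics A ∅ hA hl (disjoint_empty_right _)
  obtain ⟨x, hx1, hx2, hx3⟩ := ha m hm
  refine ⟨fun i => x (finSuccEquiv n i), fun i => a (finSuccEquiv n i), ?_, ?_⟩
  · intro i
    exact ⟨(hx2 _).1, hx3 Z h1 (by rwa [union_empty]) _⟩
  · have e0 : part K m ∅ = 1 := by rw [basics.part_prod]; simp
    rw [e0, one_mul] at hx1
    rw [hx1]
    exact (Fintype.prod_equiv (finSuccEquiv n) _ _ (fun _ => rfl)).symm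

/-- the cells all sides of which are products of powers of few small numbers -/
theorem cell_nb (n : ℕ) (C ε : ℝ) (hC : 1 ≤ C) (hε : 0 < ε) : ∃ κ D : ℝ, 0 < κ ∧ 0 < D ∧
    ∀ (R : ℝ), 1 ≤ R → ∀ (K : ℕ) (T : Finset (ℕ × ℕ × ℕ)) (A : Fin 3 → Finset (Fin (K + 1))),
    (∀ j, (A j).card ≤ n) → (∀ j, Fin.last K ∉ A j) →
    (∀ s ∈ T, IsABCTriple s.1 s.2.1 s.2.2 ∧ R ^ κ ≤ (s.2.2 : ℝ) ∧
      ∀ j, (rad (num s j) : ℝ) ≤ R ^ C ∧ (part K (num s j) (A j)ᶜ : ℝ) ≤ R ^ C) →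
    (T.card : ℝ) ≤ D * R ^ ε := by
  classical
  obtain ⟨Kn, Cn, hKn, hCn, hnt⟩ := nt_count (n + 1) (ε / C) (by positivity)
  refine ⟨C * Kn, Cn, by positivity, hCn, ?_⟩
  intro R hR K T A hA hl hT
  have hR0 : 0 < R := by linarith
  have hinj : Set.InjOn (fun s : ℕ × ℕ × ℕ => (s.1, s.2.1)) (T : Set (ℕ × ℕ × ℕ)) := by
    rintro ⟨a, b, c⟩ h1 ⟨a', b', c'⟩ h2 he
    have g1 := (hT _ (mem_coe.1 h1)).1.2.2.2.1
    have g2 := (hT _ (mem_coe.1 h2)).1.2.2.2.1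
    simp only [Prod.mk.injEq] at he g1 g2 ⊢
    omega
  have h1 := hnt (R ^ C) (Real.one_le_rpow hR (by linarith))
    (T.image (fun s : ℕ × ℕ × ℕ => (s.1, s.2.1))) (fun q hq => by
      obtain ⟨s, hs, rfl⟩ := mem_image.1 hq
      obtain ⟨q1, q2, q3⟩ := hT s hs
      have hnb : ∀ j, NB (n + 1) (R ^ C) (num s j) := fun j =>
        nb_of_classes (A j) (hA j) (hl j) (num_pos q1 j) (q3 j).1 (q3 j).2
      have n0 := hnb 0
      have n1 := hnb 1
      have n2 := hnb 2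
      have e0 : num s 0 = s.1 := by simp [num]
      have e1 : num s 1 = s.2.1 := by simp [num]
      have e2 : num s 2 = s.2.2 := by simp [num]
      rw [e0] at n0
      rw [e1] at n1
      rw [e2] at n2
      obtain ⟨a0, b0, c0, hab, k1, k2, k3⟩ := q1
      refine ⟨a0, b0, k1, n0, n1, ?_, ?_⟩
      · simp only
        rw [hab]
        exact n2
      · simp only
        rw [hab, ← Real.rpow_mul hR0.le]
        exact q2)
  rw [card_image_of_injOn hinj] at h1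
  refine h1.trans (le_of_eq ?_)
  rw [← Real.rpow_mul hR0.le]
  congr 2
  field_simp

/-- the product of the three radicals -/
theorem rad3 {s : ℕ × ℕ × ℕ} (hs : IsABCTriple s.1 s.2.1 s.2.2) (p q r : Fin 3) (h1 : p ≠ q)
    (h2 : q ≠ r) (h3 : p ≠ r) :
    rad (num s p) * (rad (num s q) * rad (num s r)) = rad (s.1 * s.2.1 * s.2.2) := by
  obtain ⟨a0, b0, c0, hab, k1, k2, k3⟩ := hs
  have hrad : ∀ x y : ℕ, Nat.Coprime x y → 0 < x → 0 < y → rad (x * y) = rad x * rad y := by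
    intro x y h hx hy
    unfold rad
    rw [Nat.primeFactors_mul hx.ne' hy.ne', prod_union]
    exact Nat.Coprime.disjoint_primeFactors h
  have e : rad (s.1 * s.2.1 * s.2.2) = rad s.1 * rad s.2.1 * rad s.2.2 := by
    rw [hrad _ _ (Nat.Coprime.mul_left k2 k3) (Nat.mul_pos a0 b0) c0, hrad _ _ k1 a0 b0]
  rw [e]
  have n0 : num s 0 = s.1 := by simp [num]
  have n1 : num s 1 = s.2.1 := by simp [num]
  have n2 : num s 2 = s.2.2 := by simp [num]
  fin_cases p <;> fin_cases q <;> fin_cases r <;>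
    first
      | (exfalso; first | exact h1 rfl | exact h2 rfl | exact h3 rfl)
      | (simp only [Fin.zero_eta, Fin.mk_one, Fin.reduceFinMk, n0, n1, n2]; ring)

theorem rad_pos (m : ℕ) : 0 < rad m :=
  Finset.prod_pos fun _ hp => (Nat.prime_of_mem_primeFactors hp).pos

theorem exists_others (r : Fin 3) : ∃ p q : Fin 3, p ≠ q ∧ q ≠ r ∧ p ≠ r := by
  fin_cases r
  · exact ⟨1, 2, by decide, by decide, by decide⟩
  · exact ⟨0, 2, by decide, by decide, by decide⟩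
  · exact ⟨0, 1, by decide, by decide, by decide⟩

/-- the last class -/
theorem last_le (K : ℕ) {s : ℕ × ℕ × ℕ} (hs : IsABCTriple s.1 s.2.1 s.2.2) (j : Fin 3) {X : ℝ}
    (hX : (s.2.2 : ℝ) ≤ X) : (rd K (num s j) {Fin.last K} : ℝ) ≤ X ^ (1 / ((K : ℝ) + 1)) := by
  have h1 := basics.part_last K (num s j)
  have hn := num_pos hs j
  have h2 : part K (num s j) {Fin.last K} ≤ s.2.2 :=
    (Nat.le_of_dvd hn (basics.part_dvd K _ _ hn)).trans (num_le hs j)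
  have h3 : ((rd K (num s j) {Fin.last K} : ℕ) : ℝ) ^ (K + 1) ≤ X := by
    refine le_trans ?_ hX
    exact_mod_cast h1.trans h2
  have h4 : (((rd K (num s j) {Fin.last K} : ℕ) : ℝ) ^ (K + 1)) ^ (1 / ((K : ℝ) + 1)) ≤
      X ^ (1 / ((K : ℝ) + 1)) := Real.rpow_le_rpow (by positivity) h3 (by positivity)
  rw [← Real.rpow_natCast, ← Real.rpow_mul (Nat.cast_nonneg _)] at h4
  have e : ((K + 1 : ℕ) : ℝ) * (1 / ((K : ℝ) + 1)) = 1 := by
    push_cast
    field_simp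
  rwa [e, Real.rpow_one] at h4

/-- the energy bound, when the product of two radicals is small -/
theorem cell_energy (K : ℕ) (ε₂ : ℝ) (hε₂ : 0 < ε₂) (hK : 4 / ε₂ ≤ K) : ∃ D : ℝ, 0 < D ∧
    ∀ R : ℝ, 1 ≤ R → ∀ X : ℕ, 1 ≤ X → ∀ T : Finset (ℕ × ℕ × ℕ), Cell K T → ∀ s ∈ T,
    s.2.2 ≤ X → ∀ p q r : Fin 3, p ≠ q → q ≠ r → p ≠ r → ∀ F : Finset (Fin (K + 1)),
    R ^ ((3 : ℝ) / 2) ≤ (part K (num s r) F : ℝ) → (rad (num s p) : ℝ) ≤ R →
    (rad (num s q) : ℝ) ≤ R → ∀ y : ℝ, (rad (num s p) : ℝ) * rad (num s q) ≤ y →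
    (T.card : ℝ) ≤ D * (X : ℝ) ^ ε₂ * rd K (num s r) F * y ^ ((1 : ℝ) / 2) := by
  classical
  obtain ⟨D, hD, h⟩ := stmtEst' K (ε₂ / 2) (by positivity)
  refine ⟨2 * D, by positivity, ?_⟩
  intro R hR X hX T hT s hs hsX p q r hpq hqr hpr F hM hp hq y hy
  have habc := hT.abc s hs
  have hX1 : (1 : ℝ) ≤ X := by exact_mod_cast hX
  have hX0 : (0 : ℝ) < X := by linarith
  have hR0 : 0 < R := by linarith
  have hc1 : 1 ≤ s.2.2 := habc.2.2.1
  have hcX : (s.2.2 : ℝ) ≤ X := by exact_mod_cast hsX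
  obtain ⟨L, hL⟩ : ∃ L : ℝ, L = (X : ℝ) ^ (1 / ((K : ℝ) + 1)) := ⟨_, rfl⟩
  have hL1 : 1 ≤ L := by rw [hL]; exact Real.one_le_rpow hX1 (by positivity)
  have hb := h T hT s hs p q r hpq hqr hpr F
  have hpart : 0 < (part K (num s r) F : ℝ) := lt_of_lt_of_le (by positivity) hM
  have side_le : ∀ j : Fin 3, (rad (num s j) : ℝ) ≤ R →
      Pool.Agent.H705R2.ABC.side K s r j F ≤ 2 * (rad (num s j) : ℝ) * L := by
    intro j hj
    unfold Pool.Agent.H705R2.ABC.side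
    rw [basics.rd_univ]
    have e1 : (rad (num s j) : ℝ) ^ ((3 : ℝ) / 2) / part K (num s r) F ≤ 1 := by
      rw [div_le_one hpart]
      exact (Real.rpow_le_rpow (Nat.cast_nonneg _) hj (by norm_num)).trans hM
    have e2 : (rd K (num s j) {Fin.last K} : ℝ) ≤ L := by
      rw [hL]
      exact last_le K habc j hcX
    have e3 : (0 : ℝ) ≤ rad (num s j) := Nat.cast_nonneg _
    calc (rad (num s j) : ℝ) * rd K (num s j) {Fin.last K} *
          (1 + (rad (num s j) : ℝ) ^ ((3 : ℝ) / 2) / part K (num s r) F)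
        ≤ (rad (num s j) : ℝ) * L * (1 + 1) := by
          gcongr
      _ = _ := by ring
  have side_nonneg : ∀ j : Fin 3, 0 ≤ Pool.Agent.H705R2.ABC.side K s r j F := by
    intro j
    unfold Pool.Agent.H705R2.ABC.side
    positivity
  have y0 : 0 ≤ y := le_trans (by positivity) hy
  have hprod : (Pool.Agent.H705R2.ABC.side K s r p F * Pool.Agent.H705R2.ABC.side K s r q F) ^
      ((1 : ℝ) / 2) ≤ 2 * L * y ^ ((1 : ℝ) / 2) := by
    have e1 : Pool.Agent.H705R2.ABC.side K s r p F * Pool.Agent.H705R2.ABC.side K s r q F ≤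
        (2 * L) ^ 2 * y := by
      calc _ ≤ (2 * (rad (num s p) : ℝ) * L) * (2 * (rad (num s q) : ℝ) * L) :=
            mul_le_mul (side_le p hp) (side_le q hq) (side_nonneg q) (by positivity)
        _ = (2 * L) ^ 2 * ((rad (num s p) : ℝ) * rad (num s q)) := by ring
        _ ≤ _ := by gcongr
    calc _ ≤ ((2 * L) ^ 2 * y) ^ ((1 : ℝ) / 2) :=
          Real.rpow_le_rpow (mul_nonneg (side_nonneg p) (side_nonneg q)) e1 (by norm_num)
      _ = 2 * L * y ^ ((1 : ℝ) / 2) := by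
          rw [Real.mul_rpow (by positivity) y0, ← Real.rpow_natCast,
            ← Real.rpow_mul (by positivity)]
          norm_num
  have hcε : (s.2.2 : ℝ) ^ (ε₂ / 2) ≤ (X : ℝ) ^ (ε₂ / 2) :=
    Real.rpow_le_rpow (by positivity) hcX (by positivity)
  have hLX : (X : ℝ) ^ (ε₂ / 2) * L ≤ (X : ℝ) ^ ε₂ := by
    rw [hL, ← Real.rpow_add hX0]
    apply Real.rpow_le_rpow_of_exponent_le hX1
    have h1 : 1 / ((K : ℝ) + 1) ≤ ε₂ / 2 := by
      rw [div_le_iff₀ hε₂] at hK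
      rw [div_le_div_iff₀ (by positivity) (by norm_num)]
      nlinarith
    linarith
  calc (T.card : ℝ) ≤ D * (s.2.2 : ℝ) ^ (ε₂ / 2) * (rd K (num s r) F : ℝ) *
        (Pool.Agent.H705R2.ABC.side K s r p F * Pool.Agent.H705R2.ABC.side K s r q F) ^
          ((1 : ℝ) / 2) := hb
    _ ≤ D * (X : ℝ) ^ (ε₂ / 2) * (rd K (num s r) F : ℝ) * (2 * L * y ^ ((1 : ℝ) / 2)) := by
        have := Real.rpow_nonneg (mul_nonneg (side_nonneg p) (side_nonneg q)) ((1 : ℝ) / 2)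
        gcongr
    _ = 2 * D * ((X : ℝ) ^ (ε₂ / 2) * L) * (rd K (num s r) F : ℝ) * y ^ ((1 : ℝ) / 2) := by ring
    _ ≤ 2 * D * (X : ℝ) ^ ε₂ * (rd K (num s r) F : ℝ) * y ^ ((1 : ℝ) / 2) := by
        have : 0 ≤ y ^ ((1 : ℝ) / 2) := Real.rpow_nonneg y0 _
        gcongr

end Pool.Agent.Helper5.Third
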