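import Pool.Agent.Helper5.Third.Level

/-!
# The bound for cells, for one choice of the thresholds
-/

set_option autoImplicit false

namespace Pool.Agent.Helper5.Third

open Finset Pool.Agent.H785R2.ABC Pool.Agent.H785R2.ABC.Fin1
open Pool.Agent.H705R2.ABC

/-- number of classes of cost more than `η` -/
noncomputable def nOf (η : ℝ) : ℕ := ⌈1 / η⌉₊

/-- the assumptions on a cell and the sets `B j ⊆ A j` of its expensive classes -/
structure Data (K n : ℕ) (η ε κ R : ℝ) (X : ℕ) (T : Finset (ℕ × ℕ × ℕ)) (s₀ : ℕ × ℕ × ℕ)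
    (A B : Fin 3 → Finset (Fin (K + 1))) : Prop where
  cell : Cell K T
  mem : s₀ ∈ T
  le : ∀ s ∈ T, s.2.2 ≤ X
  rad : ∀ s ∈ T, (rad (s.1 * s.2.1 * s.2.2) : ℝ) ≤ R
  big : ∀ s ∈ T, R ^ κ ≤ (s.2.2 : ℝ)
  sub : ∀ j, B j ⊆ A j
  cB : ∀ j, (B j).card ≤ n
  cA : ∀ j, (A j).card ≤ nOf η
  last : ∀ j, Fin.last K ∉ A j
  light : ∀ j, ∀ i ∉ A j, (rd K (num s₀ j) {i} : ℝ) ≤ R ^ η
  med : ∀ p q : Fin 3, p ≠ q →
    (rd K (num s₀ p) (A p \ B p) : ℝ) * rd K (num s₀ q) (A q \ B q) ≤ R ^ ε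

theorem rad_num_le {s : ℕ × ℕ × ℕ} (hs : IsABCTriple s.1 s.2.1 s.2.2) {R : ℝ}
    (hR : (rad (s.1 * s.2.1 * s.2.2) : ℝ) ≤ R) (j : Fin 3) : (rad (num s j) : ℝ) ≤ R := by
  obtain ⟨p, q, hpq, hqj, hpj⟩ := exists_others j
  refine le_trans ?_ hR
  have h1 := rad3 hs j p q hpj.symm hpq hqj.symm
  have h2 : rad (num s j) ≤ rad (s.1 * s.2.1 * s.2.2) := by
    rw [← h1]
    exact Nat.le_mul_of_pos_right _ (Nat.mul_pos (rad_pos _) (rad_pos _))
  exact_mod_cast h2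

/-- **one level** -/
theorem level (n : ℕ) (η C ε : ℝ) (hη : 0 < η) (hηl : 4 * η ≤ lamOf n ε) (hC : 1 ≤ C)
    (hε : 0 < ε) : ∃ Cp κ : ℝ, C ≤ Cp ∧ 0 < κ ∧ ∀ (K : ℕ) (ε₂ : ℝ), 0 < ε₂ → 4 / ε₂ ≤ K →
    ∃ D R0 : ℝ, 0 < D ∧ 2 ≤ R0 ∧ ∀ R : ℝ, R0 ≤ R → ∀ X : ℕ, 1 ≤ X →
    ∀ (T : Finset (ℕ × ℕ × ℕ)) (s₀ : ℕ × ℕ × ℕ) (A B : Fin 3 → Finset (Fin (K + 1))),
    Data K n η ε κ R X T s₀ A B →
    (∀ j, (part K (num s₀ j) (A j)ᶜ : ℝ) ≤ R ^ C ∨ R ^ Cp < (part K (num s₀ j) (A j)ᶜ : ℝ)) →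
    (T.card : ℝ) ≤ D * (X : ℝ) ^ ε₂ * R ^ ((1 : ℝ) / 3 + 2 * ε) := by
  classical
  obtain ⟨C', hC', hfew⟩ := cell_few n (C + 1) ε (by linarith) hε
  obtain ⟨κ, Dn, hκ, hDn, hnb⟩ := cell_nb (nOf η) (C + 1) ε (by linarith) hε
  obtain ⟨L, hL⟩ : ∃ L : ℕ, L = ⌈1 / η⌉₊ := ⟨_, rfl⟩
  have hLη : 1 ≤ L * η := by
    have h1 := Nat.le_ceil (1 / η)
    rw [← hL, div_le_iff₀ hη] at h1
    exact h1
  refine ⟨max C ((L + 1) * (C' + 1)), κ, le_max_left _ _, hκ, ?_⟩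
  intro K ε₂ hε₂ hK
  obtain ⟨D1, R1, hD1, hR1, hfew⟩ := hfew K ε₂ hε₂
  obtain ⟨D2, hD2, hen⟩ := cell_energy K ε₂ hε₂ hK
  obtain ⟨R2, hR2⟩ : ∃ R2 : ℝ, R2 = (2 : ℝ) ^ (K + 1) := ⟨_, rfl⟩
  have hR21 : 1 ≤ R2 := by rw [hR2]; exact one_le_pow₀ (by norm_num)
  refine ⟨D1 + D2 + Dn, max R1 (max R2 (R2 ^ (1 / (2 * η)))), by positivity,
    hR1.trans (le_max_left _ _), ?_⟩
  intro R hR X hX T s₀ A B hdat hu
  have hRR1 : R1 ≤ R := (le_max_left _ _).trans hR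
  have hRR2 : R2 ≤ R := ((le_max_left _ _).trans (le_max_right _ _)).trans hR
  have hRR3 : R2 ^ (1 / (2 * η)) ≤ R := ((le_max_right _ _).trans (le_max_right _ _)).trans hR
  have hR2' : 2 ≤ R := hR1.trans hRR1
  have hR0 : 0 < R := by linarith
  have hR1' : 1 ≤ R := by linarith
  have hR2η : R2 ≤ R ^ (2 * η) := by
    calc R2 = (R2 ^ (1 / (2 * η))) ^ (2 * η) := by
          rw [← Real.rpow_mul (by linarith)]
          rw [one_div, inv_mul_cancel₀ (by positivity), Real.rpow_one]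
      _ ≤ R ^ (2 * η) := Real.rpow_le_rpow (by positivity) hRR3 (by positivity)
  have hX1 : (1 : ℝ) ≤ X := by exact_mod_cast hX
  have hXε : 1 ≤ (X : ℝ) ^ ε₂ := Real.one_le_rpow hX1 hε₂.le
  obtain ⟨y, hy⟩ : ∃ y : ℝ, y = R ^ ((1 : ℝ) / 3 + 2 * ε) := ⟨_, rfl⟩
  have hy1 : 1 ≤ y := by rw [hy]; exact Real.one_le_rpow hR1' (by positivity)
  rw [← hy]
  have habc : ∀ s ∈ T, IsABCTriple s.1 s.2.1 s.2.2 := hdat.cell.abc
  have hrad : ∀ s ∈ T, ∀ j, (rad (num s j) : ℝ) ≤ R := fun s hs j =>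
    rad_num_le (habc s hs) (hdat.rad s hs) j
  -- transfer of the size of parts and radicals
  have hpart : ∀ s ∈ T, ∀ j S, (part K (num s j) S : ℝ) ≤ R2 * part K (num s₀ j) S := by
    intro s hs j S
    rw [hR2]
    exact_mod_cast hdat.cell.part_le s hs s₀ hdat.mem j S
  have hpart' : ∀ s ∈ T, ∀ j S, (part K (num s₀ j) S : ℝ) ≤ R2 * part K (num s j) S := by
    intro s hs j S
    rw [hR2]
    exact_mod_cast hdat.cell.part_le s₀ hdat.mem s hs j S
  have hrd : ∀ s ∈ T, ∀ j S, (rd K (num s j) S : ℝ) ≤ R2 * rd K (num s₀ j) S := by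
    intro s hs j S
    rw [hR2]
    exact_mod_cast hdat.cell.rd_le s hs s₀ hdat.mem j S
  have hlow : ∀ j, (part K (num s₀ j) (A j)ᶜ : ℝ) ≤ R ^ C → ∀ s ∈ T,
      (part K (num s j) (A j)ᶜ : ℝ) ≤ R ^ (C + 1) := by
    intro j hj s hs
    calc (part K (num s j) (A j)ᶜ : ℝ) ≤ R2 * part K (num s₀ j) (A j)ᶜ := hpart s hs j _
      _ ≤ R * R ^ C := by gcongr
      _ = R ^ (C + 1) := by rw [Real.rpow_add hR0, Real.rpow_one, mul_comm]
  by_cases hall : ∀ j, (part K (num s₀ j) (A j)ᶜ : ℝ) ≤ R ^ C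
  · -- all sides are light
    have h1 := hnb R hR1' K T A hdat.cA hdat.last (fun s hs => ⟨habc s hs, hdat.big s hs,
      fun j => ⟨(hrad s hs j).trans (by
        nth_rewrite 1 [← Real.rpow_one R]
        exact Real.rpow_le_rpow_of_exponent_le hR1' (by linarith)), hlow j (hall j) s hs⟩⟩)
    have h2 : R ^ ε ≤ y := by
      rw [hy]
      exact Real.rpow_le_rpow_of_exponent_le hR1' (by linarith)
    calc (T.card : ℝ) ≤ Dn * R ^ ε := h1
      _ ≤ Dn * y := by gcongr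
      _ ≤ (D1 + D2 + Dn) * (X : ℝ) ^ ε₂ * y := by
          have h3 : Dn ≤ (D1 + D2 + Dn) * (X : ℝ) ^ ε₂ := by nlinarith
          exact mul_le_mul_of_nonneg_right h3 (by linarith)
  -- heavy sides
  push Not at hall
  have hheavy : ∀ j, R ^ C < (part K (num s₀ j) (A j)ᶜ : ℝ) →
      R ^ (max C ((L + 1) * (C' + 1))) < (part K (num s₀ j) (A j)ᶜ : ℝ) := by
    intro j hj
    rcases hu j with h | h
    · exact absurd hj (not_lt.mpr h)
    · exact h
  -- the light set of a heavy side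
  have hG : ∀ r, R ^ C < (part K (num s₀ r) (A r)ᶜ : ℝ) → ∃ G : Finset (Fin (K + 1)),
      (rd K (num s₀ r) G : ℝ) ≤ R ^ (2 * η) ∧ R ^ (C' + 1) ≤ (part K (num s₀ r) G : ℝ) := by
    intro r hr
    have hh := hheavy r hr
    have hn := num_pos (habc s₀ hdat.mem) r
    obtain ⟨F, hF1, hF2, hF3⟩ := exists_light basics K (num s₀ r) hn (A r)ᶜ
      (P := R ^ η) (Real.one_le_rpow hR1' hη.le) L
      (fun i hi => hdat.light r i (by simpa using hi)) (by
        have h1 : (rd K (num s₀ r) (A r)ᶜ : ℝ) ≤ R := by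
          refine le_trans ?_ (hrad s₀ hdat.mem r)
          have h2 : rd K (num s₀ r) (A r)ᶜ ∣ rad (num s₀ r) := by
            rw [← basics.rd_univ K (num s₀ r)]
            exact basics.rd_dvd K _ _ _ (subset_univ _)
          exact_mod_cast Nat.le_of_dvd (rad_pos _) h2
        refine h1.trans ?_
        rw [← Real.rpow_natCast, ← Real.rpow_mul hR0.le]
        nth_rewrite 1 [← Real.rpow_one R]
        exact Real.rpow_le_rpow_of_exponent_le hR1' (by linarith))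
    refine ⟨F, ?_, ?_⟩
    · refine hF2.trans (le_of_eq ?_)
      rw [← Real.rpow_natCast, ← Real.rpow_mul hR0.le]
      congr 1
      push_cast
      ring
    · have h1 : R ^ ((L + 1) * (C' + 1)) ≤ ((part K (num s₀ r) F : ℝ)) ^ (L + 1) := by
        calc R ^ (((L : ℝ) + 1) * (C' + 1)) ≤ R ^ (max C (((L : ℝ) + 1) * (C' + 1))) :=
              Real.rpow_le_rpow_of_exponent_le hR1' (le_max_right _ _)
          _ ≤ (part K (num s₀ r) (A r)ᶜ : ℝ) := hh.le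
          _ ≤ _ := by exact_mod_cast hF3
      have h2 : (R ^ (C' + 1)) ^ (L + 1) ≤ ((part K (num s₀ r) F : ℝ)) ^ (L + 1) := by
        refine le_trans (le_of_eq ?_) h1
        rw [← Real.rpow_natCast, ← Real.rpow_mul hR0.le]
        congr 1
        push_cast
        ring
      exact le_of_pow_le_pow_left₀ (by omega) (Nat.cast_nonneg _) h2
  have hlam : lamOf n ε = 4 * (lamOf n ε / 4) := by ring
  -- the case of the energy bound
  by_cases hE : ∃ p q r : Fin 3, p ≠ q ∧ q ≠ r ∧ p ≠ r ∧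
      R ^ C < (part K (num s₀ r) (A r)ᶜ : ℝ) ∧
      (rad (num s₀ p) : ℝ) * rad (num s₀ q) ≤ R ^ ((2 : ℝ) / 3)
  · obtain ⟨p, q, r, hpq, hqr, hpr, hr, hpq2⟩ := hE
    obtain ⟨G, hG1, hG2⟩ := hG r hr
    have h1 := hen R hR1' X hX T hdat.cell s₀ hdat.mem (hdat.le s₀ hdat.mem) p q r hpq hqr hpr G
      ((Real.rpow_le_rpow_of_exponent_le hR1' (by linarith)).trans hG2)
      (hrad s₀ hdat.mem p) (hrad s₀ hdat.mem q) _ hpq2
    have h2 : R ^ (2 * η) * (R ^ ((2 : ℝ) / 3)) ^ ((1 : ℝ) / 2) ≤ y := by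
      rw [hy, ← Real.rpow_mul hR0.le, ← Real.rpow_add hR0]
      apply Real.rpow_le_rpow_of_exponent_le hR1'
      have h3 : 2 * η ≤ 2 * ε := by
        have hN1 : (1 : ℝ) ≤ (nv n : ℝ) ^ 2 := one_le_pow₀ (by
          have : 1 ≤ nv n := by unfold nv; omega
          exact_mod_cast this)
        have h4 : lamOf n ε ≤ ε := by
          unfold lamOf
          rw [div_le_iff₀ (by positivity)]
          nlinarith
        linarith
      linarith
    calc (T.card : ℝ) ≤ D2 * (X : ℝ) ^ ε₂ * rd K (num s₀ r) G *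
          (R ^ ((2 : ℝ) / 3)) ^ ((1 : ℝ) / 2) := h1
      _ ≤ D2 * (X : ℝ) ^ ε₂ * R ^ (2 * η) * (R ^ ((2 : ℝ) / 3)) ^ ((1 : ℝ) / 2) := by gcongr
      _ = D2 * (X : ℝ) ^ ε₂ * (R ^ (2 * η) * (R ^ ((2 : ℝ) / 3)) ^ ((1 : ℝ) / 2)) := by ring
      _ ≤ D2 * (X : ℝ) ^ ε₂ * y := by gcongr
      _ ≤ (D1 + D2 + Dn) * (X : ℝ) ^ ε₂ * y := by
          gcongr
          linarith
  push Not at hE
  -- heavy sides have a small radical
  have hsmall : ∀ r, R ^ C < (part K (num s₀ r) (A r)ᶜ : ℝ) →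
      (rad (num s₀ r) : ℝ) ≤ R ^ ((1 : ℝ) / 3) := by
    intro r hr
    obtain ⟨p, q, hpq, hqr, hpr⟩ := exists_others r
    have h1 := hE p q r hpq hqr hpr hr
    have h2 := rad3 (habc s₀ hdat.mem) r p q hpr.symm hpq hqr.symm
    have h3 : (rad (num s₀ r) : ℝ) * ((rad (num s₀ p) : ℝ) * rad (num s₀ q)) ≤ R := by
      refine le_trans (le_of_eq ?_) (hdat.rad s₀ hdat.mem)
      exact_mod_cast h2
    have h4 : (rad (num s₀ r) : ℝ) * R ^ ((2 : ℝ) / 3) ≤ R := by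
      refine le_trans ?_ h3
      exact mul_le_mul_of_nonneg_left h1.le (Nat.cast_nonneg _)
    have h5 : R = R ^ ((1 : ℝ) / 3) * R ^ ((2 : ℝ) / 3) := by
      rw [← Real.rpow_add hR0]
      norm_num
    rw [h5] at h4
    rw [← h5] at h4
    have h6 : (rad (num s₀ r) : ℝ) * R ^ ((2 : ℝ) / 3) ≤
        R ^ ((1 : ℝ) / 3) * R ^ ((2 : ℝ) / 3) := by rw [← h5]; exact h4
    exact le_of_mul_le_mul_right h6 (by positivity)
  obtain ⟨r, hr⟩ := hall
  obtain ⟨p, q, hpq, hqr, hpr⟩ := exists_others r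
  obtain ⟨G, hG1, hG2⟩ := hG r hr
  obtain ⟨F, hF⟩ : ∃ F : Fin 3 → Finset (Fin (K + 1)), F = fun j => (A j \ B j) ∪
    (if R ^ C < (part K (num s₀ j) (A j)ᶜ : ℝ) then (A j)ᶜ else ∅) := ⟨_, rfl⟩
  have hdisj : ∀ j, Disjoint (B j) (F j) := by
    intro j
    rw [hF, disjoint_union_right]
    refine ⟨disjoint_sdiff, ?_⟩
    split_ifs
    · exact (disjoint_compl_right (a := A j)).mono_left (hdat.sub j)
    · exact disjoint_empty_right _
  have hBF : ∀ j, ∀ s ∈ T, (part K (num s j) (B j ∪ F j)ᶜ : ℝ) ≤ R ^ (C + 1) := by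
    intro j s hs
    by_cases hj : R ^ C < (part K (num s₀ j) (A j)ᶜ : ℝ)
    · have h1 : (B j ∪ F j)ᶜ = ∅ := by
        rw [hF]
        simp only [if_pos hj]
        ext i
        simp only [mem_compl, mem_union, mem_sdiff, notMem_empty, iff_false, not_not]
        by_cases h2 : i ∈ B j
        · exact Or.inl h2
        · by_cases h3 : i ∈ A j
          · exact Or.inr (Or.inl ⟨h3, h2⟩)
          · exact Or.inr (Or.inr h3)
      have h2 : part K (num s j) ∅ = 1 := by rw [basics.part_prod]; simp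
      rw [h1, h2, Nat.cast_one]
      exact Real.one_le_rpow hR1' (by linarith)
    · have h1 : (B j ∪ F j)ᶜ = (A j)ᶜ := by
        rw [hF]
        simp only [if_neg hj, union_empty]
        rw [union_sdiff_of_subset (hdat.sub j)]
      rw [h1]
      exact hlow j (not_lt.mp hj) s hs
  have h1 := hfew R hRR1 X hX T hdat.cell hdat.le s₀ hdat.mem p q r hpq hqr hpr (B p) (B q)
    (F p) (F q) G (hdat.cB p) (hdat.cB q) (fun h => hdat.last p (hdat.sub p h))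
    (fun h => hdat.last q (hdat.sub q h)) (hdisj p) (hdisj q) (fun s hs => by
      refine ⟨hrad s hs p, hrad s hs q, hBF p s hs, hBF q s hs, ?_, ?_⟩
      · calc (rd K (num s r) G : ℝ) ≤ R2 * rd K (num s₀ r) G := hrd s hs r G
          _ ≤ R ^ (2 * η) * R ^ (2 * η) := by gcongr
          _ = R ^ (4 * η) := by
              rw [← Real.rpow_add hR0]
              congr 1
              ring
          _ ≤ R ^ lamOf n ε := Real.rpow_le_rpow_of_exponent_le hR1' hηl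
      · have h2 := hpart' s hs r G
        have h3 : R ^ (C' + 1) = R * R ^ C' := by
          rw [Real.rpow_add hR0, Real.rpow_one, mul_comm]
        rw [h3] at hG2
        have h4 : R * R ^ C' ≤ R * part K (num s r) G := by
          refine hG2.trans (h2.trans ?_)
          exact mul_le_mul_of_nonneg_right hRR2 (Nat.cast_nonneg _)
        exact le_of_mul_le_mul_left h4 hR0)
  -- the product of the fixed radicals
  have hmed1 : ∀ j, (1 : ℝ) ≤ rd K (num s₀ j) (A j \ B j) := by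
    intro j
    exact_mod_cast basics.rd_pos K (num s₀ j) _
  have hmedj : ∀ j, (rd K (num s₀ j) (A j \ B j) : ℝ) ≤ R ^ ε := by
    intro j
    obtain ⟨p, q, hpq, hqj, hpj⟩ := exists_others j
    have h2 := hdat.med j p hpj.symm
    have h3 := hmed1 p
    have h4 := hmed1 j
    nlinarith
  have hFj : ∀ j, (rd K (num s₀ j) (F j) : ℝ) ≤ rad (num s₀ j) := by
    intro j
    have h2 : rd K (num s₀ j) (F j) ∣ rad (num s₀ j) := by
      rw [← basics.rd_univ K (num s₀ j)]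
      exact basics.rd_dvd K _ _ _ (subset_univ _)
    exact_mod_cast Nat.le_of_dvd (rad_pos _) h2
  have hFl : ∀ j, ¬ R ^ C < (part K (num s₀ j) (A j)ᶜ : ℝ) → F j = A j \ B j := by
    intro j hj
    rw [hF]
    simp only [if_neg hj, union_empty]
  have hF1 : ∀ j, (1 : ℝ) ≤ rd K (num s₀ j) (F j) := by
    intro j
    exact_mod_cast basics.rd_pos K (num s₀ j) _
  have hRe1 : 1 ≤ R ^ ε := Real.one_le_rpow hR1' hε.le
  have hR13 : 1 ≤ R ^ ((1 : ℝ) / 3) := Real.one_le_rpow hR1' (by norm_num)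
  have hkey : (rd K (num s₀ p) (F p) : ℝ) * rd K (num s₀ q) (F q) ≤
      R ^ ((1 : ℝ) / 3) * R ^ ε := by
    by_cases hp : R ^ C < (part K (num s₀ p) (A p)ᶜ : ℝ)
    · by_cases hq : R ^ C < (part K (num s₀ q) (A q)ᶜ : ℝ)
      · exfalso
        have h2 := hE p q r hpq hqr hpr hr
        have h3 := hsmall p hp
        have h4 := hsmall q hq
        have h5 : (rad (num s₀ p) : ℝ) * rad (num s₀ q) ≤
            R ^ ((1 : ℝ) / 3) * R ^ ((1 : ℝ) / 3) := by gcongr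
        have h6 : R ^ ((1 : ℝ) / 3) * R ^ ((1 : ℝ) / 3) = R ^ ((2 : ℝ) / 3) := by
          rw [← Real.rpow_add hR0]
          norm_num
        linarith
      · have h2 : (rd K (num s₀ q) (F q) : ℝ) ≤ R ^ ε := by
          rw [hFl q hq]
          exact hmedj q
        exact mul_le_mul ((hFj p).trans (hsmall p hp)) h2 (Nat.cast_nonneg _) (by positivity)
    · by_cases hq : R ^ C < (part K (num s₀ q) (A q)ᶜ : ℝ)
      · have h2 : (rd K (num s₀ p) (F p) : ℝ) ≤ R ^ ε := by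
          rw [hFl p hp]
          exact hmedj p
        rw [mul_comm (R ^ ((1 : ℝ) / 3))]
        exact mul_le_mul h2 ((hFj q).trans (hsmall q hq)) (Nat.cast_nonneg _) (by positivity)
      · rw [hFl p hp, hFl q hq]
        have h2 := hdat.med p q hpq
        nlinarith
  calc (T.card : ℝ) ≤ D1 * (X : ℝ) ^ ε₂ * R ^ ε *
        (rd K (num s₀ p) (F p) * rd K (num s₀ q) (F q)) := h1
    _ ≤ D1 * (X : ℝ) ^ ε₂ * R ^ ε * (R ^ ((1 : ℝ) / 3) * R ^ ε) := by gcongr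
    _ = D1 * (X : ℝ) ^ ε₂ * (R ^ ε * R ^ ((1 : ℝ) / 3) * R ^ ε) := by ring
    _ = D1 * (X : ℝ) ^ ε₂ * y := by
        rw [hy, ← Real.rpow_add hR0, ← Real.rpow_add hR0]
        congr 2
        ring
    _ ≤ (D1 + D2 + Dn) * (X : ℝ) ^ ε₂ * y := by
        gcongr
        linarith

end Pool.Agent.Helper5.Third
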