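import Pool.Agent.Helper5.Third.Level2

/-!
# The bound for cells, for all thresholds
-/

set_option autoImplicit false

namespace Pool.Agent.Helper5.Third

open Finset Pool.Agent.H785R2.ABC Pool.Agent.H785R2.ABC.Fin1
open Pool.Agent.H705R2.ABC

theorem Data.mono {K n : ℕ} {η ε κ κ' R : ℝ} {X : ℕ} {T : Finset (ℕ × ℕ × ℕ)} {s₀ : ℕ × ℕ × ℕ}
    {A B : Fin 3 → Finset (Fin (K + 1))} (h : Data K n η ε κ' R X T s₀ A B) (hκ : κ ≤ κ')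
    (hR : 1 ≤ R) : Data K n η ε κ R X T s₀ A B where
  cell := h.cell
  mem := h.mem
  le := h.le
  rad := h.rad
  big := fun s hs => (Real.rpow_le_rpow_of_exponent_le hR hκ).trans (h.big s hs)
  sub := h.sub
  cB := h.cB
  cA := h.cA
  last := h.last
  light := h.light
  med := h.med

/-- **the levels**: no assumption on the thresholds -/
theorem levels (n : ℕ) (η ε : ℝ) (hη : 0 < η) (hηl : 4 * η ≤ lamOf n ε)
    (hε : 0 < ε) : ∃ κ : ℝ, 0 < κ ∧ ∀ (K : ℕ) (ε₂ : ℝ), 0 < ε₂ → 4 / ε₂ ≤ K →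
    ∃ D R0 : ℝ, 0 < D ∧ 2 ≤ R0 ∧ ∀ R : ℝ, R0 ≤ R → ∀ X : ℕ, 1 ≤ X →
    ∀ (T : Finset (ℕ × ℕ × ℕ)) (s₀ : ℕ × ℕ × ℕ) (A B : Fin 3 → Finset (Fin (K + 1))),
    Data K n η ε κ R X T s₀ A B →
    (T.card : ℝ) ≤ D * (X : ℝ) ^ ε₂ * R ^ ((1 : ℝ) / 3 + 2 * ε) := by
  classical
  have hlev : ∀ C : {C : ℝ // 1 ≤ C}, ∃ Cp : {C : ℝ // 1 ≤ C}, ∃ κ : ℝ, C.1 ≤ Cp.1 ∧ 0 < κ ∧
    ∀ (K : ℕ) (ε₂ : ℝ), 0 < ε₂ → 4 / ε₂ ≤ K →
    ∃ D R0 : ℝ, 0 < D ∧ 2 ≤ R0 ∧ ∀ R : ℝ, R0 ≤ R → ∀ X : ℕ, 1 ≤ X →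
    ∀ (T : Finset (ℕ × ℕ × ℕ)) (s₀ : ℕ × ℕ × ℕ) (A B : Fin 3 → Finset (Fin (K + 1))),
    Data K n η ε κ R X T s₀ A B →
    (∀ j, (part K (num s₀ j) (A j)ᶜ : ℝ) ≤ R ^ C.1 ∨
      R ^ Cp.1 < (part K (num s₀ j) (A j)ᶜ : ℝ)) →
    (T.card : ℝ) ≤ D * (X : ℝ) ^ ε₂ * R ^ ((1 : ℝ) / 3 + 2 * ε) := by
    rintro ⟨C, hC⟩
    obtain ⟨Cp, κ, h1, h2, h3⟩ := level n η C ε hη hηl hC hε
    exact ⟨⟨Cp, hC.trans h1⟩, κ, h1, h2, h3⟩
  choose next κ hnext hκ hmain using hlev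
  obtain ⟨C, hC⟩ : ∃ C : ℕ → {C : ℝ // 1 ≤ C}, C = fun σ => next^[σ] ⟨1, le_rfl⟩ := ⟨_, rfl⟩
  have hCs : ∀ σ, C (σ + 1) = next (C σ) := by
    intro σ
    rw [hC]
    simp only [Function.iterate_succ', Function.comp_apply]
  have hCmono : Monotone (fun σ => (C σ).1) := by
    refine monotone_nat_of_le_succ fun σ => ?_
    simp only [hCs]
    exact hnext _
  refine ⟨∑ σ ∈ range 4, κ (C σ), sum_pos (fun σ _ => hκ _) (by simp), ?_⟩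
  intro K ε₂ hε₂ hK
  choose D R0 hD hR0 hbd using fun σ : ℕ => hmain (C σ) K ε₂ hε₂ hK
  refine ⟨∑ σ ∈ range 4, D σ, ∑ σ ∈ range 4, R0 σ, sum_pos (fun σ _ => hD σ) (by simp), ?_, ?_⟩
  · refine (hR0 0).trans (single_le_sum (f := R0) (fun σ _ => ?_) (by simp))
    have := hR0 σ
    linarith
  intro R hR X hX T s₀ A B hdat
  have hRσ : ∀ σ ∈ range 4, R0 σ ≤ R := fun σ hσ =>
    (single_le_sum (f := R0) (fun σ _ => by have := hR0 σ; linarith) hσ).trans hR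
  have hR1 : 1 ≤ R := by
    have h1 := hRσ 0 (by simp)
    have h2 := hR0 0
    linarith
  have hκσ : ∀ σ ∈ range 4, κ (C σ) ≤ ∑ σ ∈ range 4, κ (C σ) := fun σ hσ =>
    single_le_sum (f := fun σ => κ (C σ)) (fun σ _ => (hκ _).le) hσ
  -- the choice of the level
  obtain ⟨σ, hσ, hgood⟩ : ∃ σ ∈ range 4, ∀ j, (part K (num s₀ j) (A j)ᶜ : ℝ) ≤ R ^ (C σ).1 ∨
      R ^ (C (σ + 1)).1 < (part K (num s₀ j) (A j)ᶜ : ℝ) := by
    by_contra hcon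
    push Not at hcon
    choose! f hf1 hf2 using hcon
    have hmaps : ∀ σ ∈ range 4, f σ ∈ (univ : Finset (Fin 3)) := fun σ _ => mem_univ _
    obtain ⟨x, hx, y, hy, hxy, hfe⟩ := exists_ne_map_eq_of_card_lt_of_maps_to
      (by simp) hmaps
    have key : ∀ x ∈ range 4, ∀ y ∈ range 4, f x = f y → x < y → False := by
      intro x hx y hy hfe hlt
      have h1 := hf2 x hx
      have h2 := hf1 y hy
      rw [hfe] at h1
      have h3 : R ^ (C (x + 1)).1 ≤ R ^ (C y).1 :=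
        Real.rpow_le_rpow_of_exponent_le hR1 (hCmono hlt)
      linarith
    rcases lt_or_gt_of_ne hxy with h | h
    · exact key x hx y hy hfe h
    · exact key y hy x hx hfe.symm h
  have h1 := hbd σ R (hRσ σ hσ) X hX T s₀ A B (hdat.mono (hκσ σ hσ) hR1) (by
    rw [← hCs]
    exact hgood)
  have hX0 : (0 : ℝ) < X := by exact_mod_cast hX
  have h2 : D σ ≤ ∑ σ ∈ range 4, D σ :=
    single_le_sum (f := D) (fun σ _ => (hD σ).le) hσ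
  have h3 : 0 < R := by linarith
  exact h1.trans (by gcongr)

end Pool.Agent.Helper5.Third
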