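import Pool.Graph.R_seed8.H785R2.ABC.Basics

/-!
# Power divisors with small bases, and light sets of classes with a large part
-/

set_option autoImplicit false

namespace Pool.Agent.Helper5.Third

open Finset Pool.Agent.H785R2.ABC

/-- the largest number whose `k`-th power divides `m` -/
def rt (k m : ℕ) : ℕ := ∏ p ∈ m.primeFactors, p ^ (m.factorization p / k)

theorem rt_pos (k m : ℕ) : 0 < rt k m :=
  Finset.prod_pos fun _ hp => Nat.pow_pos (Nat.prime_of_mem_primeFactors hp).pos

theorem prod_fac {m : ℕ} (hm : m ≠ 0) : ∏ p ∈ m.primeFactors, p ^ m.factorization p = m := by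
  conv_rhs => rw [← Nat.prod_factorization_pow_eq_self hm]
  rfl

theorem rt_pow_dvd (k : ℕ) {m : ℕ} (hm : m ≠ 0) : rt k m ^ k ∣ m := by
  conv_rhs => rw [← prod_fac hm]
  unfold rt
  rw [← Finset.prod_pow]
  apply Finset.prod_dvd_prod_of_dvd
  intro p _
  rw [← pow_mul]
  exact pow_dvd_pow _ (Nat.div_mul_le_self _ _)

theorem le_rt {k m : ℕ} (hk : 1 ≤ k) (hm : m ≠ 0) : m ≤ rt k m ^ k * rad m ^ (k - 1) := by
  conv_lhs => rw [← prod_fac hm]
  unfold rt rad
  rw [← Finset.prod_pow, ← Finset.prod_pow, ← Finset.prod_mul_distrib]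
  apply Finset.prod_le_prod'
  intro p hp
  rw [← pow_mul, ← pow_add]
  apply Nat.pow_le_pow_right (Nat.prime_of_mem_primeFactors hp).pos
  have h1 := Nat.div_add_mod (m.factorization p) k
  have h2 := Nat.mod_lt (m.factorization p) (by omega : 0 < k)
  rw [mul_comm] at h1
  omega

/-- a divisor which is a power of a small number -/
theorem exists_root {R lam : ℝ} (hR : 1 < R) (hlam : 0 < lam) {m : ℕ} (hm : 2 ≤ m)
    (hrad : (rad m : ℝ) ≤ R ^ lam) : ∃ r k : ℕ, 2 ≤ r ∧ (r : ℝ) ≤ R ^ (2 * lam) ∧ r ^ k ∣ m ∧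
      (m : ℝ) ^ ((1 : ℝ) / 2) ≤ (r : ℝ) ^ k := by
  have hR0 : 0 < R := by linarith
  have hm0 : m ≠ 0 := by omega
  have hm1 : (1 : ℝ) < m := by exact_mod_cast (by omega : 1 < m)
  have hmp : (0 : ℝ) < m := by linarith
  have hlm : 0 < Real.log m := Real.log_pos hm1
  have hlR : 0 < Real.log R := Real.log_pos hR
  obtain ⟨k, hk⟩ : ∃ k : ℕ, k = ⌈Real.log m / (2 * lam * Real.log R)⌉₊ := ⟨_, rfl⟩
  have hq : 0 < Real.log m / (2 * lam * Real.log R) := by positivity
  have hk1 : 1 ≤ k := by
    rw [hk]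
    exact Nat.one_le_iff_ne_zero.mpr (Nat.ceil_pos.mpr hq).ne'
  have hkpos : (0 : ℝ) < k := by exact_mod_cast hk1
  have hk2 : Real.log m ≤ k * (2 * lam * Real.log R) := by
    have h1 := Nat.le_ceil (Real.log m / (2 * lam * Real.log R))
    rw [← hk, div_le_iff₀ (by positivity)] at h1
    exact h1
  have hk3 : ((k : ℝ) - 1) * (2 * lam * Real.log R) ≤ Real.log m := by
    have h1 := (Nat.ceil_lt_add_one hq.le).le
    rw [← hk] at h1
    have h2 : (k : ℝ) - 1 ≤ Real.log m / (2 * lam * Real.log R) := by linarith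
    rwa [le_div_iff₀ (by positivity)] at h2
  obtain ⟨r, hr⟩ : ∃ r, r = rt k m := ⟨_, rfl⟩
  have hrpos : 0 < r := by rw [hr]; exact rt_pos _ _
  have hrp : (0 : ℝ) < r := by exact_mod_cast hrpos
  have hdvd : r ^ k ∣ m := by rw [hr]; exact rt_pow_dvd k hm0
  have hle : (r : ℝ) ^ k ≤ m := by exact_mod_cast Nat.le_of_dvd (by omega) hdvd
  have hge : (m : ℝ) ≤ (r : ℝ) ^ k * (rad m : ℝ) ^ (k - 1) := by
    rw [hr]
    exact_mod_cast le_rt hk1 hm0
  have hradp : (0 : ℝ) < rad m := by
    have : 0 < rad m := Finset.prod_pos fun p hp => (Nat.prime_of_mem_primeFactors hp).pos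
    exact_mod_cast this
  have hlrad : Real.log (rad m) ≤ lam * Real.log R := by
    rw [← Real.log_rpow hR0]
    exact Real.log_le_log hradp hrad
  have hlge : Real.log m ≤ k * Real.log r + ((k : ℝ) - 1) * Real.log (rad m) := by
    have h1 := Real.log_le_log hmp hge
    rw [Real.log_mul (by positivity) (by positivity), Real.log_pow, Real.log_pow] at h1
    rw [Nat.cast_sub hk1] at h1
    push_cast at h1
    exact h1
  have hhalf : Real.log m / 2 ≤ k * Real.log r := by
    have h0 : (0 : ℝ) ≤ (k : ℝ) - 1 := by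
      have : (1 : ℝ) ≤ k := by exact_mod_cast hk1
      linarith
    have h1 : ((k : ℝ) - 1) * Real.log (rad m) ≤ ((k : ℝ) - 1) * (lam * Real.log R) :=
      mul_le_mul_of_nonneg_left hlrad h0
    nlinarith
  refine ⟨r, k, ?_, ?_, hdvd, ?_⟩
  · by_contra hcon
    have h1 : r = 1 := by omega
    rw [h1] at hhalf
    simp at hhalf
    linarith
  · have h1 : (k : ℝ) * Real.log r ≤ Real.log m := by
      have := Real.log_le_log (by positivity) hle
      rwa [Real.log_pow] at this
    have h2 : Real.log r ≤ 2 * lam * Real.log R := by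
      have h3 : (k : ℝ) * Real.log r ≤ k * (2 * lam * Real.log R) := h1.trans hk2
      exact le_of_mul_le_mul_left h3 hkpos
    rw [← Real.log_rpow hR0] at h2
    exact (Real.log_le_log_iff hrp (by positivity)).mp h2
  · have h1 : Real.log ((m : ℝ) ^ ((1 : ℝ) / 2)) ≤ Real.log ((r : ℝ) ^ k) := by
      rw [Real.log_rpow hmp, Real.log_pow]
      linarith
    exact (Real.log_le_log_iff (by positivity) (by positivity)).mp h1

/-- a light set of classes with a large part -/
theorem exists_light (hF : Basics) (K n : ℕ) (hn : 1 ≤ n) (S : Finset (Fin (K + 1))) {P : ℝ}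
    (hP : 1 ≤ P) (L : ℕ) (hS : ∀ i ∈ S, (rd K n {i} : ℝ) ≤ P) (hL : (rd K n S : ℝ) ≤ P ^ L) :
    ∃ F ⊆ S, (rd K n F : ℝ) ≤ P ^ 2 ∧ part K n S ≤ part K n F ^ (L + 1) := by
  classical
  obtain ⟨G, hG⟩ : ∃ G : ℕ → Finset (Fin (K + 1)), G = fun k : ℕ =>
      S.filter fun i : Fin (K + 1) => k ≤ (i : ℕ) := ⟨_, rfl⟩
  have hG0 : G 0 = S := by
    rw [hG]
    simp
  have hGK : (rd K n (G K) : ℝ) ≤ P ^ 2 := by
    by_cases hl : Fin.last K ∈ S
    · have h1 : G K = {Fin.last K} := by
        rw [hG]
        ext i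
        simp only [mem_filter, mem_singleton]
        constructor
        · rintro ⟨_, h⟩
          exact Fin.ext (by simp only [Fin.val_last]; omega)
        · rintro rfl
          exact ⟨hl, by simp⟩
      rw [h1]
      have h2 := hS _ hl
      nlinarith
    · have h1 : G K = ∅ := by
        rw [hG]
        ext i
        simp only [mem_filter, notMem_empty, iff_false, not_and, not_le]
        intro hi
        by_contra h
        push Not at h
        apply hl
        have : i = Fin.last K := Fin.ext (by simp only [Fin.val_last]; omega)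
        rwa [← this]
      rw [h1, hF.rd_prod]
      simp only [prod_empty, Nat.cast_one]
      nlinarith
  have hex : ∃ k, (rd K n (G k) : ℝ) ≤ P ^ 2 := ⟨K, hGK⟩
  obtain ⟨k, hspec, hmin, hkK⟩ : ∃ k, (rd K n (G k) : ℝ) ≤ P ^ 2 ∧
      (∀ m < k, ¬ (rd K n (G m) : ℝ) ≤ P ^ 2) ∧ k ≤ K :=
    ⟨Nat.find hex, Nat.find_spec hex, fun m hm => Nat.find_min hex hm, Nat.find_le hGK⟩
  have hGS : G k ⊆ S := by
    rw [hG]
    exact filter_subset _ _
  refine ⟨G k, hGS, hspec, ?_⟩
  rcases Nat.eq_zero_or_pos k with h0 | hpos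
  · rw [h0, hG0]
    exact Nat.le_self_pow (by omega) _
  obtain ⟨j, hj⟩ : ∃ j, k = j + 1 := ⟨k - 1, by omega⟩
  have hjK : j < K := by omega
  -- the cost of the light set is large
  have hbig : P < (rd K n (G k) : ℝ) := by
    have h1 := hmin j (by omega)
    push Not at h1
    have h2 : G j ⊆ insert (⟨j, by omega⟩ : Fin (K + 1)) (G k) := by
      rw [hG]
      intro i hi
      simp only [mem_filter] at hi
      rw [mem_insert, mem_filter]
      rcases eq_or_ne (i : ℕ) j with h | h
      · left
        exact Fin.ext h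
      · right
        exact ⟨hi.1, by omega⟩
    have hnot : (⟨j, by omega⟩ : Fin (K + 1)) ∉ G k := by
      rw [hG]
      simp only [mem_filter, not_and, not_le]
      intro _
      omega
    by_cases hjS : (⟨j, by omega⟩ : Fin (K + 1)) ∈ S
    · have h3 : rd K n (G j) ≤ rd K n {(⟨j, by omega⟩ : Fin (K + 1))} * rd K n (G k) := by
        have h4 := Nat.le_of_dvd (by have := hF.rd_pos K n (insert (⟨j, by omega⟩ : Fin (K + 1)) (G k)); omega)
          (hF.rd_dvd K n _ _ h2)
        refine h4.trans (le_of_eq ?_)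
        rw [hF.rd_prod K n (insert _ _), prod_insert hnot, ← hF.rd_prod]
      have h5 : (rd K n (G j) : ℝ) ≤ P * rd K n (G k) := by
        calc (rd K n (G j) : ℝ) ≤ ((rd K n {(⟨j, by omega⟩ : Fin (K + 1))} * rd K n (G k) : ℕ) : ℝ) := by
              exact_mod_cast h3
          _ ≤ P * rd K n (G k) := by
              push_cast
              exact mul_le_mul_of_nonneg_right (hS _ hjS) (Nat.cast_nonneg _)
      have h6 : P * P < P * rd K n (G k) := by
        rw [← sq]
        linarith
      exact lt_of_mul_lt_mul_left h6 (by linarith)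
    · have h3 : G j = G k := by
        rw [hG]
        ext i
        simp only [mem_filter]
        constructor
        · rintro ⟨h4, h5⟩
          refine ⟨h4, ?_⟩
          have : (i : ℕ) ≠ j := by
            intro h
            apply hjS
            have : i = ⟨j, by omega⟩ := Fin.ext h
            rwa [← this]
          omega
        · rintro ⟨h4, h5⟩
          exact ⟨h4, by omega⟩
      rw [h3] at h1
      exact absurd hspec (not_le.mpr h1)
  -- the part of the light set
  have hpart : (rd K n (G k)) ^ (k + 1) ≤ part K n (G k) := by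
    rw [hF.rd_prod K n (G k), hF.part_prod K n (G k), ← prod_pow]
    apply prod_le_prod'
    intro i hi
    have hik : k ≤ (i : ℕ) := by
      rw [hG] at hi
      exact (mem_filter.mp hi).2
    have hr1 := hF.rd_pos K n {i}
    rcases Nat.lt_or_ge (i : ℕ) K with h | h
    · rw [hF.part_single K n i h]
      exact Nat.pow_le_pow_right hr1 (by omega)
    · have hi' : i = Fin.last K := Fin.ext (by simp only [Fin.val_last]; omega)
      rw [hi']
      refine le_trans (Nat.pow_le_pow_right ?_ (by omega)) (hF.part_last K n)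
      exact hF.rd_pos K n _
  -- the rest
  have hrest : part K n (S \ G k) ≤ rd K n (S \ G k) ^ k := by
    rw [hF.rd_prod K n (S \ G k), hF.part_prod K n (S \ G k), ← prod_pow]
    apply prod_le_prod'
    intro i hi
    have hik : (i : ℕ) < k := by
      rw [mem_sdiff, hG, mem_filter] at hi
      by_contra h
      exact hi.2 ⟨hi.1, by omega⟩
    rw [hF.part_single K n i (by omega)]
    exact Nat.pow_le_pow_right (hF.rd_pos K n {i}) (by omega)
  have hsplit : part K n S = part K n (S \ G k) * part K n (G k) := by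
    rw [hF.part_prod K n S, hF.part_prod K n (S \ G k), hF.part_prod K n (G k),
      prod_sdiff hGS]
  have hrestR : (rd K n (S \ G k) : ℝ) ≤ P ^ L := by
    refine le_trans ?_ hL
    exact_mod_cast Nat.le_of_dvd (hF.rd_pos K n S) (hF.rd_dvd K n _ _ sdiff_subset)
  have h9 : (part K n (S \ G k) : ℝ) ≤ (part K n (G k) : ℝ) ^ L := by
    calc (part K n (S \ G k) : ℝ) ≤ (rd K n (S \ G k) : ℝ) ^ k := by exact_mod_cast hrest
      _ ≤ (P ^ L) ^ k := pow_le_pow_left₀ (Nat.cast_nonneg _) hrestR _
      _ = (P ^ k) ^ L := by rw [← pow_mul, ← pow_mul, mul_comm]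
      _ ≤ ((rd K n (G k) : ℝ) ^ (k + 1)) ^ L := by
          apply pow_le_pow_left₀ (by positivity)
          calc P ^ k ≤ (rd K n (G k) : ℝ) ^ k := pow_le_pow_left₀ (by linarith) hbig.le _
            _ ≤ (rd K n (G k) : ℝ) ^ (k + 1) :=
                pow_le_pow_right₀ (by linarith) (by omega)
      _ ≤ (part K n (G k) : ℝ) ^ L := by
          apply pow_le_pow_left₀ (by positivity)
          exact_mod_cast hpart
  have h10 : part K n (S \ G k) ≤ part K n (G k) ^ L := by exact_mod_cast h9
  rw [hsplit, pow_succ]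
  exact Nat.mul_le_mul_right _ h10

end Pool.Agent.Helper5.Third
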