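import Pool.Agent.Helper5.Third.Levels
import Pool.Graph.R_seed8.H705R2.ABC.Main

/-!
# The choice of the scale, and the bound for all cells
-/

set_option autoImplicit false

namespace Pool.Agent.Helper5.Third

open Finset Pool.Agent.H785R2.ABC Pool.Agent.H785R2.ABC.Fin1
open Pool.Agent.H705R2.ABC

/-- the scales -/
noncomputable def scale (ε : ℝ) : ℕ → ℝ
  | 0 => 1
  | t + 1 => lamOf (nOf (scale ε t)) ε / 4

theorem scale_pos {ε : ℝ} (hε : 0 < ε) (t : ℕ) : 0 < scale ε t := by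
  cases t with
  | zero => simp [scale]
  | succ t =>
    have := lamOf_pos (nOf (scale ε t)) hε
    simp only [scale]
    positivity

theorem scale_step {ε : ℝ} (hε : 0 < ε) (hε1 : ε ≤ 1) (t : ℕ) (ht : scale ε t ≤ 1) :
    scale ε (t + 1) ≤ scale ε t := by
  have h0 := scale_pos hε t
  obtain ⟨y, hy⟩ : ∃ y, y = scale ε t := ⟨_, rfl⟩
  rw [← hy] at h0 ht ⊢
  simp only [scale, ← hy, lamOf]
  have h1 : 1 / y ≤ nv (nOf y) := by
    have h2 : 1 / y ≤ nOf y := Nat.le_ceil _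
    have h3 : (nOf y : ℝ) ≤ nv (nOf y) := by
      unfold nv
      push_cast
      have : (0 : ℝ) ≤ nOf y := Nat.cast_nonneg _
      linarith
    exact h2.trans h3
  have hN := nv_pos (nOf y)
  obtain ⟨N, hN'⟩ : ∃ N : ℝ, N = nv (nOf y) := ⟨_, rfl⟩
  rw [← hN'] at h1 hN ⊢
  rw [div_le_iff₀ h0] at h1
  rw [div_div, div_le_iff₀ (by positivity)]
  have h4 : 1 ≤ N := by nlinarith
  nlinarith [mul_nonneg h0.le hN.le, mul_le_mul_of_nonneg_left h4 (mul_nonneg h0.le hN.le)]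

theorem scale_le_one {ε : ℝ} (hε : 0 < ε) (hε1 : ε ≤ 1) (t : ℕ) : scale ε t ≤ 1 := by
  induction t with
  | zero => simp [scale]
  | succ t ih => exact (scale_step hε hε1 t ih).trans ih

theorem scale_anti {ε : ℝ} (hε : 0 < ε) (hε1 : ε ≤ 1) : Antitone (scale ε) :=
  antitone_nat_of_succ_le fun t => scale_step hε hε1 t (scale_le_one hε hε1 t)

/-- the classes whose radical is more than `R ^ η` -/
noncomputable def cls (K : ℕ) (R η : ℝ) (m : ℕ) : Finset (Fin (K + 1)) :=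
  univ.filter fun i => R ^ η < (rd K m {i} : ℝ)

theorem mem_cls {K : ℕ} {R η : ℝ} {m : ℕ} {i : Fin (K + 1)} :
    i ∈ cls K R η m ↔ R ^ η < (rd K m {i} : ℝ) := by
  simp [cls]

theorem cls_mono {K : ℕ} {R η η' : ℝ} {m : ℕ} (hR : 1 ≤ R) (h : η ≤ η') :
    cls K R η' m ⊆ cls K R η m := by
  intro i hi
  rw [mem_cls] at hi ⊢
  exact lt_of_le_of_lt (Real.rpow_le_rpow_of_exponent_le hR h) hi

theorem cls_card {K : ℕ} {R η : ℝ} {m : ℕ} (hR : 1 < R) (hη : 0 < η) (hm : (rad m : ℝ) ≤ R) :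
    (cls K R η m).card ≤ nOf η := by
  have h1 : (R ^ η) ^ (cls K R η m).card ≤ R := by
    refine le_trans ?_ hm
    have h2 : (R ^ η) ^ (cls K R η m).card ≤ (rd K m (cls K R η m) : ℝ) := by
      rw [basics.rd_prod]
      push_cast
      rw [← prod_const]
      exact prod_le_prod (fun i _ => by positivity) (fun i hi => (mem_cls.1 hi).le)
    refine h2.trans ?_
    have h3 : rd K m (cls K R η m) ∣ rad m := by
      rw [← basics.rd_univ K m]
      exact basics.rd_dvd K _ _ _ (subset_univ _)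
    exact_mod_cast Nat.le_of_dvd (rad_pos m) h3
  rw [← Real.rpow_natCast, ← Real.rpow_mul (by linarith)] at h1
  have h1' : R ^ (η * ((cls K R η m).card : ℝ)) ≤ R ^ (1 : ℝ) := by
    rw [Real.rpow_one]
    exact h1
  rw [Real.rpow_le_rpow_left_iff hR] at h1'
  have h4 : ((cls K R η m).card : ℝ) ≤ 1 / η := by
    rw [le_div_iff₀ hη]
    linarith
  have h5 : ((cls K R η m).card : ℝ) ≤ nOf η := h4.trans (Nat.le_ceil _)
  exact_mod_cast h5

theorem rd_union {K m : ℕ} {S S' : Finset (Fin (K + 1))} (h : Disjoint S S') :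
    rd K m (S ∪ S') = rd K m S * rd K m S' := by
  rw [basics.rd_prod, basics.rd_prod K m S, basics.rd_prod K m S', prod_union h]

/-- the product over the scales of the radicals of the differences -/
theorem prod_diff_le {ε : ℝ} (hε : 0 < ε) (hε1 : ε ≤ 1) (K : ℕ) {R : ℝ} (hR : 1 ≤ R) (m t : ℕ) :
    ∏ u ∈ range t, rd K m (cls K R (scale ε (u + 1)) m \ cls K R (scale ε u) m) ≤
      rd K m (cls K R (scale ε t) m) := by
  induction t with
  | zero =>
    simp only [range_zero, prod_empty]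
    exact basics.rd_pos K m _
  | succ t ih =>
    rw [prod_range_succ]
    have h1 : cls K R (scale ε (t + 1)) m = cls K R (scale ε t) m ∪
        (cls K R (scale ε (t + 1)) m \ cls K R (scale ε t) m) := by
      rw [union_sdiff_of_subset]
      exact cls_mono hR (scale_anti hε hε1 (Nat.le_succ t))
    have h2 : rd K m (cls K R (scale ε (t + 1)) m) = rd K m (cls K R (scale ε t) m) *
        rd K m (cls K R (scale ε (t + 1)) m \ cls K R (scale ε t) m) := by
      conv_lhs => rw [h1]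
      exact rd_union disjoint_sdiff
    rw [h2]
    exact Nat.mul_le_mul_right _ ih

/-- the radical of the differences is small for one of the scales -/
theorem exists_scale {ε : ℝ} (hε : 0 < ε) (hε1 : ε ≤ 1) (K : ℕ) {R : ℝ} (hR : 1 ≤ R)
    (m : Fin 3 → ℕ) (hm : (∏ j, (rad (m j) : ℝ)) ≤ R) : ∃ t < ⌈1 / ε⌉₊,
    (∏ j, (rd K (m j) (cls K R (scale ε (t + 1)) (m j) \ cls K R (scale ε t) (m j)) : ℝ)) ≤
      R ^ ε := by
  by_contra hcon
  push Not at hcon
  have hT : 1 ≤ ⌈1 / ε⌉₊ := Nat.one_le_ceil_iff.mpr (by positivity)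
  have hR0 : 0 < R := by linarith
  have h1 : (∏ t ∈ range ⌈1 / ε⌉₊, R ^ ε) < ∏ t ∈ range ⌈1 / ε⌉₊,
      (∏ j, (rd K (m j) (cls K R (scale ε (t + 1)) (m j) \ cls K R (scale ε t) (m j)) : ℝ)) :=
    prod_lt_prod_of_nonempty (fun t _ => by positivity) (fun t ht => hcon t (mem_range.1 ht))
      ⟨0, mem_range.2 hT⟩
  rw [prod_comm, prod_const, card_range] at h1
  have h2 : (∏ j, ∏ t ∈ range ⌈1 / ε⌉₊,
      (rd K (m j) (cls K R (scale ε (t + 1)) (m j) \ cls K R (scale ε t) (m j)) : ℝ)) ≤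
      ∏ j, (rad (m j) : ℝ) := by
    refine prod_le_prod (fun j _ => by positivity) (fun j _ => ?_)
    have h3 := prod_diff_le hε hε1 K hR (m j) ⌈1 / ε⌉₊
    have h4 : rd K (m j) (cls K R (scale ε ⌈1 / ε⌉₊) (m j)) ∣ rad (m j) := by
      rw [← basics.rd_univ K (m j)]
      exact basics.rd_dvd K _ _ _ (subset_univ _)
    exact_mod_cast h3.trans (Nat.le_of_dvd (rad_pos _) h4)
  have h5 : R ≤ (R ^ ε) ^ ⌈1 / ε⌉₊ := by
    rw [← Real.rpow_natCast, ← Real.rpow_mul hR0.le]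
    nth_rewrite 1 [← Real.rpow_one R]
    apply Real.rpow_le_rpow_of_exponent_le hR
    have h6 := Nat.le_ceil (1 / ε)
    rw [div_le_iff₀ hε] at h6
    linarith
  linarith

theorem rad_fin3 {s : ℕ × ℕ × ℕ} (hs : IsABCTriple s.1 s.2.1 s.2.2) :
    ∏ j, (rad (num s j) : ℝ) = (rad (s.1 * s.2.1 * s.2.2) : ℝ) := by
  have h := rad3 hs 0 1 2 (by decide) (by decide) (by decide)
  rw [Fin.prod_univ_three, ← h]
  push_cast
  ring

/-- **all cells** for which `X` is at most a power of `R` -/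
theorem cell_scale (ε : ℝ) (hε : 0 < ε) (hε1 : ε ≤ 1) : ∃ κ : ℝ, 0 < κ ∧
    ∀ (a ε₂ : ℝ), 0 < a → 0 < ε₂ → ∃ K₀ : ℕ, ∀ K : ℕ, K₀ ≤ K →
    ∃ D R0 : ℝ, 0 < D ∧ 2 ≤ R0 ∧ ∀ R : ℝ, R0 ≤ R → ∀ X : ℕ, 1 ≤ X → (X : ℝ) ≤ R ^ a →
    ∀ T : Finset (ℕ × ℕ × ℕ), Cell K T → (∀ s ∈ T, s.2.2 ≤ X ∧
      (rad (s.1 * s.2.1 * s.2.2) : ℝ) ≤ R ∧ R ^ κ ≤ (s.2.2 : ℝ)) →
    (T.card : ℝ) ≤ D * (X : ℝ) ^ ε₂ * R ^ ((1 : ℝ) / 3 + 2 * ε) := by
  classical
  obtain ⟨N, hN⟩ : ∃ N : ℕ, N = ⌈1 / ε⌉₊ := ⟨_, rfl⟩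
  have hN1 : 1 ≤ N := by rw [hN]; exact Nat.one_le_ceil_iff.mpr (by positivity)
  have hl : ∀ t : ℕ, 4 * scale ε (t + 1) ≤ lamOf (nOf (scale ε t)) ε := by
    intro t
    simp only [scale]
    linarith
  choose κ hκ hmain using fun t : ℕ => levels (nOf (scale ε t)) (scale ε (t + 1)) ε
    (scale_pos hε (t + 1)) (hl t) hε
  have hne : (range N).Nonempty := ⟨0, mem_range.2 hN1⟩
  refine ⟨∑ t ∈ range N, κ t, sum_pos (fun t _ => hκ t) hne, ?_⟩
  intro a ε₂ ha hε₂
  refine ⟨⌈4 / ε₂⌉₊ + ⌈a / scale ε N⌉₊, ?_⟩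
  intro K hK
  have hK1 : 4 / ε₂ ≤ K := by
    refine (Nat.le_ceil _).trans ?_
    exact_mod_cast (Nat.le_add_right _ _).trans hK
  have hK2 : a / scale ε N ≤ K := by
    refine (Nat.le_ceil _).trans ?_
    exact_mod_cast (Nat.le_add_left _ _).trans hK
  choose D R0 hD hR0 hbd using fun t : ℕ => hmain t K ε₂ hε₂ hK1
  refine ⟨∑ t ∈ range N, D t, ∑ t ∈ range N, R0 t, sum_pos (fun t _ => hD t) hne, ?_, ?_⟩
  · exact (hR0 0).trans (single_le_sum (f := R0) (fun t _ => by have := hR0 t; linarith)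
      (mem_range.2 hN1))
  intro R hR X hX hXa T hT hs
  have hRt : ∀ t < N, R0 t ≤ R := fun t ht =>
    (single_le_sum (f := R0) (fun t _ => by have := hR0 t; linarith) (mem_range.2 ht)).trans hR
  have hR2 : 2 ≤ R := (hR0 0).trans (hRt 0 hN1)
  have hR1 : 1 ≤ R := by linarith
  have hR0' : 0 < R := by linarith
  have hX0 : (0 : ℝ) < X := by exact_mod_cast hX
  rcases T.eq_empty_or_nonempty with h0 | ⟨s₀, hs₀⟩
  · rw [h0]
    simp only [card_empty, Nat.cast_zero]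
    have := sum_pos (fun t _ => hD t) hne
    positivity
  have habc := hT.abc s₀ hs₀
  obtain ⟨t, ht, hmed⟩ := exists_scale hε hε1 K hR1 (fun j => num s₀ j) (by
    rw [rad_fin3 habc]
    exact (hs s₀ hs₀).2.1)
  rw [← hN] at ht
  have hrad : ∀ j, (rad (num s₀ j) : ℝ) ≤ R := rad_num_le habc (hs s₀ hs₀).2.1
  have hdat : Data K (nOf (scale ε t)) (scale ε (t + 1)) ε (κ t) R X T s₀
      (fun j => cls K R (scale ε (t + 1)) (num s₀ j)) (fun j => cls K R (scale ε t) (num s₀ j)) := by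
    refine ⟨hT, hs₀, fun s h => (hs s h).1, fun s h => (hs s h).2.1, ?_, ?_, ?_, ?_, ?_, ?_, ?_⟩
    · intro s h
      refine le_trans ?_ (hs s h).2.2
      apply Real.rpow_le_rpow_of_exponent_le hR1
      exact single_le_sum (f := κ) (fun t _ => (hκ t).le) (mem_range.2 ht)
    · intro j
      exact cls_mono hR1 (scale_anti hε hε1 (Nat.le_succ t))
    · intro j
      exact cls_card (by linarith) (scale_pos hε _) (hrad j)
    · intro j
      exact cls_card (by linarith) (scale_pos hε _) (hrad j)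
    · intro j hj
      rw [mem_cls] at hj
      have h1 := last_le K habc j (X := (X : ℝ)) (by exact_mod_cast (hs s₀ hs₀).1)
      have h2 : (X : ℝ) ^ (1 / ((K : ℝ) + 1)) ≤ R ^ scale ε (t + 1) := by
        calc (X : ℝ) ^ (1 / ((K : ℝ) + 1)) ≤ (R ^ a) ^ (1 / ((K : ℝ) + 1)) :=
              Real.rpow_le_rpow hX0.le hXa (by positivity)
          _ = R ^ (a / ((K : ℝ) + 1)) := by
              rw [← Real.rpow_mul hR0'.le, mul_one_div]
          _ ≤ R ^ scale ε (t + 1) := by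
              apply Real.rpow_le_rpow_of_exponent_le hR1
              have h3 : scale ε N ≤ scale ε (t + 1) := scale_anti hε hε1 ht
              have h4 := scale_pos hε N
              rw [div_le_iff₀ h4] at hK2
              rw [div_le_iff₀ (by positivity)]
              have h5 : (0 : ℝ) ≤ K := Nat.cast_nonneg _
              nlinarith
      linarith
    · intro j i hi
      rw [mem_cls, not_lt] at hi
      exact hi
    · intro p q hpq
      refine le_trans ?_ hmed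
      have h1 : ∏ j ∈ {p, q}, rd K (num s₀ j) (cls K R (scale ε (t + 1)) (num s₀ j) \
          cls K R (scale ε t) (num s₀ j)) ≤ ∏ j, rd K (num s₀ j)
          (cls K R (scale ε (t + 1)) (num s₀ j) \ cls K R (scale ε t) (num s₀ j)) :=
        prod_le_prod_of_subset_of_one_le' (subset_univ _) (fun j _ _ => basics.rd_pos K _ _)
      rw [prod_pair hpq] at h1
      exact_mod_cast h1
  have h1 := hbd t R (hRt t ht) X hX T s₀ _ _ hdat
  have h2 : D t ≤ ∑ t ∈ range N, D t :=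
    single_le_sum (f := D) (fun t _ => (hD t).le) (mem_range.2 ht)
  exact h1.trans (by gcongr)

end Pool.Agent.Helper5.Third
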